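import Pool.Agent.Helper69.UG.Defs
import Pool.Agent.Helper54.LG.Pt

/-!
# UG: the kernel `qk`

`b ^ 3 qk 0 b = 4 (b - sin b)`; lower bound (K1), dependence on `a` (K2), two scales (K7).
-/

set_option autoImplicit false
open MeasureTheory Set Filter Topology
open Pool.Agent.Helper57.Zeta Pool.Agent.Helper57.LH Pool.Agent.Helper57.ED Pool.Agent.Helper54.LG
open Pool.Agent.Helper69.UG

namespace Pool.Agent.Helper24.UG

theorem qk_closed (b : ℝ) : b ^ 3 * qk 0 b = 4 * (b - Real.sin b) := by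
  have hd : ∀ u : ℝ, HasDerivAt (fun u : ℝ => b ^ 2 * ((1 - u) ^ 2 * Real.sin (b * u))
      - 2 * b * ((1 - u) * Real.cos (b * u)) - 2 * Real.sin (b * u))
      (b ^ 3 * ((1 - u) ^ 2 * Real.cosh (0 * u) * Real.cos (b * u))) u := by
    intro u
    have h1 : HasDerivAt (fun u : ℝ => 1 - u) (-1) u := by
      simpa using (hasDerivAt_id u).const_sub 1
    have hb : HasDerivAt (fun u : ℝ => b * u) b u := by
      simpa using (hasDerivAt_id u).const_mul b
    have e := ((((h1.pow 2).mul hb.sin).const_mul (b ^ 2)).sub ((h1.mul hb.cos).const_mul (2 * b))).sub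
      (hb.sin.const_mul 2)
    refine e.congr_deriv ?_
    simp only [Pi.pow_apply, zero_mul, Real.cosh_zero]
    push_cast
    ring
  have c1 : Continuous fun u : ℝ => (1 - u) ^ 2 * Real.cosh (0 * u) * Real.cos (b * u) := by fun_prop
  have key := intervalIntegral.integral_eq_sub_of_hasDerivAt (a := 0) (b := 1)
    (fun u _ => hd u) ((c1.const_mul (b ^ 3)).intervalIntegrable 0 1)
  rw [intervalIntegral.integral_const_mul] at key
  simp only [sub_self, mul_one, mul_zero, Real.sin_zero, Real.cos_zero, sub_zero] at key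
  unfold qk
  linear_combination 2 * key

theorem qk_zero_zero : qk 0 0 = 2 / 3 := by
  unfold qk
  simp only [zero_mul, Real.cosh_zero, Real.cos_zero, mul_one]
  have : ∫ u in (0:ℝ)..1, (1 - u) ^ 2 = 1 / 3 := by
    rw [intervalIntegral.integral_comp_sub_left (fun u => u ^ 2) 1]
    norm_num
  rw [this]
  norm_num

private lemma sin_small {b : ℝ} (h0 : 0 < b) (h1 : b ≤ 1) : 11 / 96 * b ^ 3 ≤ b - Real.sin b := by
  have h := Real.sin_bound (x := b) (by rw [abs_of_pos h0]; exact h1)
  rw [abs_of_pos h0] at h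
  have h2 := (abs_le.1 h).2
  have h3 : b ^ 5 ≤ b ^ 3 := by
    have : b ^ 5 = b ^ 3 * b ^ 2 := by ring
    rw [this]
    exact mul_le_of_le_one_right (by positivity) (pow_le_one₀ h0.le h1)
  have h4 : 0 < b ^ 3 := by positivity
  linarith

private lemma sin_one_le : Real.sin 1 ≤ 1 - 11 / 96 := by
  have := sin_small one_pos le_rfl
  linarith

private lemma sub_sin_mono : Monotone fun x : ℝ => x - Real.sin x := by
  refine monotone_of_deriv_nonneg (by fun_prop) fun x => ?_
  have h : HasDerivAt (fun x : ℝ => x - Real.sin x) (1 - Real.cos x) x :=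
    (hasDerivAt_id x).sub (Real.hasDerivAt_sin x)
  rw [h.deriv]
  linarith [Real.cos_le_one x]

private lemma qk_lower_pos {b : ℝ} (hb : 0 < b) : 11 / 48 / (1 + b ^ 2) ≤ qk 0 b := by
  have hcl := qk_closed b
  have hb3 : 0 < b ^ 3 := by positivity
  rw [div_le_iff₀ (by positivity)]
  rcases le_or_gt b 1 with h | h
  · have h1 := sin_small hb h
    have h2 : 11 / 24 * b ^ 3 ≤ b ^ 3 * qk 0 b := by linarith
    have h3 : 11 / 24 ≤ qk 0 b := by
      by_contra hcon
      push Not at hcon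
      nlinarith
    nlinarith [sq_nonneg b]
  · have h1 : 11 / 192 * b ≤ b - Real.sin b := by
      rcases le_or_gt b 2 with h2 | h2
      · have h3 := sub_sin_mono h.le
        simp only at h3
        have := sin_one_le
        linarith
      · have := Real.sin_le_one b
        linarith
    have h2 : 11 / 48 * b ≤ b ^ 3 * qk 0 b := by linarith
    have h3 : 11 / 48 ≤ b ^ 2 * qk 0 b := by
      have : b ^ 3 * qk 0 b = b * (b ^ 2 * qk 0 b) := by ring
      rw [this] at h2
      by_contra hcon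
      push Not at hcon
      nlinarith
    have := qk_zero_nonneg b
    nlinarith

/-- K1 with the constant `11/48`. -/
theorem qk_lower' (b : ℝ) : 11 / 48 / (1 + b ^ 2) ≤ qk 0 b := by
  rcases lt_trichotomy b 0 with h | h | h
  · have := qk_lower_pos (neg_pos.2 h)
    rwa [qk_neg_right, neg_sq] at this
  · rw [h, qk_zero_zero]
    norm_num
  · exact qk_lower_pos h

/-- K1 -/
theorem qk_lower : ∃ c1 : ℝ, 0 < c1 ∧ ∀ b, c1 / (1 + b ^ 2) ≤ qk 0 b :=
  ⟨11 / 48, by norm_num, qk_lower'⟩

private lemma sinh_le {x : ℝ} (hx : 0 ≤ x) : Real.sinh x ≤ x * Real.cosh x := by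
  have hm : MonotoneOn (fun x : ℝ => x * Real.cosh x - Real.sinh x) (Ici 0) := by
    refine monotoneOn_of_deriv_nonneg (convex_Ici 0) (by fun_prop) (by fun_prop) fun x hx => ?_
    rw [interior_Ici] at hx
    have h : HasDerivAt (fun x : ℝ => x * Real.cosh x - Real.sinh x)
        (1 * Real.cosh x + x * Real.sinh x - Real.cosh x) x :=
      ((hasDerivAt_id x).mul (Real.hasDerivAt_cosh x)).sub (Real.hasDerivAt_sinh x)
    rw [h.deriv]
    have := mul_nonneg (le_of_lt hx) (Real.sinh_nonneg_iff.2 (le_of_lt hx))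
    linarith
  have := hm (mem_Ici.2 le_rfl) (mem_Ici.2 hx) hx
  simp only [zero_mul, Real.sinh_zero, sub_zero] at this
  linarith

private lemma abs_sinh_le (x : ℝ) : |Real.sinh x| ≤ |x| * Real.cosh x := by
  rw [Real.abs_sinh, ← Real.cosh_abs x]
  exact sinh_le (abs_nonneg x)

private lemma cosh_sub_le (x : ℝ) : Real.cosh x - 1 ≤ x ^ 2 / 2 * Real.cosh x := by
  have h1 : Real.cosh x = 2 * Real.sinh (x / 2) ^ 2 + 1 := by
    have := Real.cosh_two_mul (x / 2)
    rw [show 2 * (x / 2) = x by ring] at this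
    rw [this, Real.cosh_sq]
    ring
  have h2 := abs_sinh_le (x / 2)
  have h3 : Real.sinh (x / 2) ^ 2 ≤ (x / 2) ^ 2 * Real.cosh (x / 2) ^ 2 := by
    rw [← sq_abs, ← sq_abs (x / 2), ← mul_pow]
    exact pow_le_pow_left₀ (abs_nonneg _) h2 2
  have h4 : Real.cosh (x / 2) ^ 2 = (Real.cosh x + 1) / 2 := by
    rw [Real.cosh_sq]
    linarith
  rw [h4] at h3
  have h5 := Real.one_le_cosh x
  nlinarith [sq_nonneg x]

/-- `(1-u)² (cosh (au) - 1)` and its second derivative -/
private noncomputable def D2 (a u : ℝ) : ℝ :=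
  2 * (Real.cosh (a * u) - 1) - 4 * (1 - u) * (a * Real.sinh (a * u)) + (1 - u) ^ 2 * (a ^ 2 * Real.cosh (a * u))

private lemma D2_cont (a : ℝ) : Continuous (D2 a) := by
  unfold D2
  fun_prop

private lemma parts (a b : ℝ) :
    b ^ 2 * (∫ u in (0:ℝ)..1, (1 - u) ^ 2 * (Real.cosh (a * u) - 1) * Real.cos (b * u)) =
      -∫ u in (0:ℝ)..1, D2 a u * Real.cos (b * u) := by
  have hd : ∀ u : ℝ, HasDerivAt (fun u : ℝ => (1 - u) ^ 2 * (Real.cosh (a * u) - 1) * (b * Real.sin (b * u))
      + (-2 * ((1 - u) * (Real.cosh (a * u) - 1)) + (1 - u) ^ 2 * (a * Real.sinh (a * u))) * Real.cos (b * u))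
      (b ^ 2 * ((1 - u) ^ 2 * (Real.cosh (a * u) - 1) * Real.cos (b * u)) + D2 a u * Real.cos (b * u)) u := by
    intro u
    have h1 : HasDerivAt (fun u : ℝ => 1 - u) (-1) u := by
      simpa using (hasDerivAt_id u).const_sub 1
    have ha : HasDerivAt (fun u : ℝ => a * u) a u := by
      simpa using (hasDerivAt_id u).const_mul a
    have hb : HasDerivAt (fun u : ℝ => b * u) b u := by
      simpa using (hasDerivAt_id u).const_mul b
    have hc := ha.cosh.sub_const 1
    have hs := ha.sinh.const_mul a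
    have e1 := ((h1.pow 2).mul hc).mul (hb.sin.const_mul b)
    have e2 := (((h1.mul hc).const_mul (-2)).add ((h1.pow 2).mul hs)).mul hb.cos
    refine (e1.add e2).congr_deriv ?_
    unfold D2
    simp only [Pi.mul_apply, Pi.pow_apply, Pi.add_apply]
    push_cast
    ring
  have c1 : Continuous fun u : ℝ => (1 - u) ^ 2 * (Real.cosh (a * u) - 1) * Real.cos (b * u) := by fun_prop
  have c2 : Continuous fun u : ℝ => D2 a u * Real.cos (b * u) := (D2_cont a).mul (by fun_prop)
  have key := intervalIntegral.integral_eq_sub_of_hasDerivAt (a := 0) (b := 1)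
    (fun u _ => hd u) (((c1.const_mul (b ^ 2)).add c2).intervalIntegrable 0 1)
  rw [intervalIntegral.integral_add ((c1.const_mul (b ^ 2)).intervalIntegrable 0 1)
    (c2.intervalIntegrable 0 1), intervalIntegral.integral_const_mul] at key
  simp only [sub_self, mul_one, mul_zero, Real.sin_zero, Real.sinh_zero, Real.cosh_zero, sub_zero, zero_mul,
    add_zero, ne_eq, OfNat.ofNat_ne_zero, not_false_eq_true, zero_pow] at key
  linarith [key]

private lemma cosh_mul_le {a u : ℝ} (h0 : 0 ≤ u) (h1 : u ≤ 1) : Real.cosh (a * u) ≤ Real.cosh a := by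
  rw [Real.cosh_le_cosh, abs_mul, abs_of_nonneg h0]
  exact mul_le_of_le_one_right (abs_nonneg a) h1

private lemma abs_D2_le {a u : ℝ} (h0 : 0 ≤ u) (h1 : u ≤ 1) :
    |D2 a u| ≤ (u ^ 2 + 4 * (u * (1 - u)) + (1 - u) ^ 2) * (a ^ 2 * Real.cosh a) := by
  have hc := cosh_mul_le (a := a) h0 h1
  have hc0 := Real.cosh_pos (a * u)
  have hu : 0 ≤ 1 - u := by linarith
  have e1 : |2 * (Real.cosh (a * u) - 1)| ≤ u ^ 2 * (a ^ 2 * Real.cosh a) := by
    rw [abs_of_nonneg (by linarith [Real.one_le_cosh (a * u)])]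
    have h3 := cosh_sub_le (a * u)
    have h2 := mul_le_mul_of_nonneg_left hc (mul_nonneg (sq_nonneg u) (sq_nonneg a))
    nlinarith
  have e2 : |4 * (1 - u) * (a * Real.sinh (a * u))| ≤ 4 * (u * (1 - u)) * (a ^ 2 * Real.cosh a) := by
    rw [abs_mul, abs_mul, abs_mul]
    have h2 := abs_sinh_le (a * u)
    rw [abs_mul, abs_of_nonneg h0] at h2
    rw [abs_of_pos (by norm_num : (0:ℝ) < 4), abs_of_nonneg hu]
    have h3 : |a| * |Real.sinh (a * u)| ≤ u * (a ^ 2 * Real.cosh a) := by
      calc |a| * |Real.sinh (a * u)| ≤ |a| * (|a| * u * Real.cosh a) := by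
            refine mul_le_mul_of_nonneg_left (h2.trans ?_) (abs_nonneg a)
            exact mul_le_mul_of_nonneg_left hc (mul_nonneg (abs_nonneg a) h0)
        _ = (|a| * |a|) * (u * Real.cosh a) := by ring
        _ = u * (a ^ 2 * Real.cosh a) := by rw [abs_mul_abs_self]; ring
    have h4 := mul_le_mul_of_nonneg_left h3 (by positivity : 0 ≤ 4 * (1 - u))
    linarith
  have e3 : |(1 - u) ^ 2 * (a ^ 2 * Real.cosh (a * u))| ≤ (1 - u) ^ 2 * (a ^ 2 * Real.cosh a) := by
    rw [abs_of_nonneg (by positivity)]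
    exact mul_le_mul_of_nonneg_left (mul_le_mul_of_nonneg_left hc (sq_nonneg a)) (sq_nonneg _)
  unfold D2
  have := abs_sub (2 * (Real.cosh (a * u) - 1)) (4 * (1 - u) * (a * Real.sinh (a * u)))
  have h5 := abs_add_le (2 * (Real.cosh (a * u) - 1) - 4 * (1 - u) * (a * Real.sinh (a * u)))
    ((1 - u) ^ 2 * (a ^ 2 * Real.cosh (a * u)))
  linarith

/-- K2 with the constant `3`. -/
theorem qk_diff3 (a b : ℝ) : |qk a b - qk 0 b| ≤ 3 * a ^ 2 * Real.cosh a / (1 + b ^ 2) := by
  have e0 : qk a b - qk 0 b =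
      2 * ∫ u in (0:ℝ)..1, (1 - u) ^ 2 * (Real.cosh (a * u) - 1) * Real.cos (b * u) := by
    unfold qk
    rw [← mul_sub, ← intervalIntegral.integral_sub]
    · congr 1
      refine intervalIntegral.integral_congr fun u _ => ?_
      simp only [zero_mul, Real.cosh_zero]
      ring
    · apply Continuous.intervalIntegrable
      fun_prop
    · apply Continuous.intervalIntegrable
      fun_prop
  have hA : 0 ≤ a ^ 2 * Real.cosh a := by positivity
  have h1 : |∫ u in (0:ℝ)..1, (1 - u) ^ 2 * (Real.cosh (a * u) - 1) * Real.cos (b * u)| ≤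
      1 / 60 * (a ^ 2 * Real.cosh a) := by
    have hg : ∫ u in (0:ℝ)..1, (u ^ 2 - 2 * u ^ 3 + u ^ 4) * (a ^ 2 * Real.cosh a / 2) =
        1 / 60 * (a ^ 2 * Real.cosh a) := by
      rw [intervalIntegral.integral_mul_const]
      have : ∫ u in (0:ℝ)..1, (u ^ 2 - 2 * u ^ 3 + u ^ 4) = 1 / 30 := by
        rw [intervalIntegral.integral_add (by apply Continuous.intervalIntegrable; fun_prop)
          (by apply Continuous.intervalIntegrable; fun_prop), intervalIntegral.integral_sub
          (by apply Continuous.intervalIntegrable; fun_prop) (by apply Continuous.intervalIntegrable; fun_prop),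
          intervalIntegral.integral_const_mul, integral_pow, integral_pow, integral_pow]
        norm_num
      rw [this]
      ring
    rw [← hg, ← Real.norm_eq_abs]
    refine intervalIntegral.norm_integral_le_of_norm_le zero_le_one ?_ (by apply Continuous.intervalIntegrable; fun_prop)
    refine Eventually.of_forall fun u hu => ?_
    rw [Real.norm_eq_abs, abs_mul, abs_mul, abs_of_nonneg (sq_nonneg _),
      abs_of_nonneg (by linarith [Real.one_le_cosh (a * u)])]
    have h3 := cosh_sub_le (a * u)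
    have hc := cosh_mul_le (a := a) hu.1.le hu.2
    have h2 := mul_le_mul_of_nonneg_left hc (mul_nonneg (sq_nonneg u) (sq_nonneg a))
    have h4 : Real.cosh (a * u) - 1 ≤ u ^ 2 * (a ^ 2 * Real.cosh a / 2) := by nlinarith
    calc (1 - u) ^ 2 * (Real.cosh (a * u) - 1) * |Real.cos (b * u)| ≤
          (1 - u) ^ 2 * (u ^ 2 * (a ^ 2 * Real.cosh a / 2)) * 1 := by
          refine mul_le_mul (mul_le_mul_of_nonneg_left h4 (sq_nonneg _)) (Real.abs_cos_le_one _) (abs_nonneg _)
            (by positivity)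
      _ = _ := by ring
  have h2 : b ^ 2 * |∫ u in (0:ℝ)..1, (1 - u) ^ 2 * (Real.cosh (a * u) - 1) * Real.cos (b * u)| ≤
      4 / 3 * (a ^ 2 * Real.cosh a) := by
    have h3 : b ^ 2 * |∫ u in (0:ℝ)..1, (1 - u) ^ 2 * (Real.cosh (a * u) - 1) * Real.cos (b * u)| =
        |∫ u in (0:ℝ)..1, D2 a u * Real.cos (b * u)| := by
      rw [← abs_of_nonneg (sq_nonneg b), ← abs_mul, parts, abs_neg]
    have hg : ∫ u in (0:ℝ)..1, (1 + 2 * u - 2 * u ^ 2) * (a ^ 2 * Real.cosh a) =
        4 / 3 * (a ^ 2 * Real.cosh a) := by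
      rw [intervalIntegral.integral_mul_const]
      have : ∫ u in (0:ℝ)..1, (1 + 2 * u - 2 * u ^ 2) = 4 / 3 := by
        rw [intervalIntegral.integral_sub (by apply Continuous.intervalIntegrable; fun_prop)
          (by apply Continuous.intervalIntegrable; fun_prop), intervalIntegral.integral_add
          (by apply Continuous.intervalIntegrable; fun_prop) (by apply Continuous.intervalIntegrable; fun_prop),
          intervalIntegral.integral_const_mul, intervalIntegral.integral_const_mul, integral_pow, integral_id]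
        norm_num
      rw [this]
    rw [h3, ← hg, ← Real.norm_eq_abs]
    refine intervalIntegral.norm_integral_le_of_norm_le zero_le_one ?_ (by apply Continuous.intervalIntegrable; fun_prop)
    refine Eventually.of_forall fun u hu => ?_
    rw [Real.norm_eq_abs, abs_mul]
    calc |D2 a u| * |Real.cos (b * u)| ≤ (u ^ 2 + 4 * (u * (1 - u)) + (1 - u) ^ 2) * (a ^ 2 * Real.cosh a) * 1 := by
          refine mul_le_mul (abs_D2_le hu.1.le hu.2) (Real.abs_cos_le_one _) (abs_nonneg _) ?_
          have : 0 ≤ u * (1 - u) := mul_nonneg hu.1.le (by linarith [hu.2])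
          positivity
      _ = _ := by ring
  rw [e0, abs_mul, abs_of_pos (by norm_num : (0:ℝ) < 2), le_div_iff₀ (by positivity)]
  generalize |∫ u in (0:ℝ)..1, (1 - u) ^ 2 * (Real.cosh (a * u) - 1) * Real.cos (b * u)| = I at *
  nlinarith

/-- K2 -/
theorem qk_diff : ∃ C : ℝ, 0 < C ∧ ∀ a b, |qk a b - qk 0 b| ≤ C * a ^ 2 * Real.cosh a / (1 + b ^ 2) :=
  ⟨3, by norm_num, qk_diff3⟩

/-- summability -/
theorem summable_q0 {X : ℝ} (hX : 0 < X) (t : ℝ) : Summable fun ρ : ZS => mx ρ * qk 0 (zb X t ρ) := by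
  refine Summable.of_nonneg_of_le (fun ρ => mul_nonneg (mx_nonneg _) (qk_zero_nonneg _)) (fun ρ => ?_) (summable_h hX t)
  refine mul_le_mul_of_nonneg_left ?_ (mx_nonneg _)
  unfold hk
  have h1 := le_abs_self (qk 0 (zb X t ρ))
  have h2 := abs_nonneg (qk (za X ρ) (zb X t ρ))
  linarith

theorem summable_inv {X : ℝ} (hX : 0 < X) (t : ℝ) : Summable fun ρ : ZS => mx ρ * (1 / (1 + zb X t ρ ^ 2)) := by
  refine Summable.of_nonneg_of_le (fun ρ => mul_nonneg (mx_nonneg _) (by positivity)) (fun ρ => ?_)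
    ((summable_q0 hX t).mul_left (48 / 11))
  have h1 := qk_lower' (zb X t ρ)
  have h2 : 1 / (1 + zb X t ρ ^ 2) ≤ 48 / 11 * qk 0 (zb X t ρ) := by
    have : 1 / (1 + zb X t ρ ^ 2) = 48 / 11 * (11 / 48 / (1 + zb X t ρ ^ 2)) := by
      field_simp
    rw [this]
    linarith
  calc mx ρ * (1 / (1 + zb X t ρ ^ 2)) ≤ mx ρ * (48 / 11 * qk 0 (zb X t ρ)) := mul_le_mul_of_nonneg_left h2 (mx_nonneg _)
    _ = _ := by ring

private lemma two_pt {b : ℝ} (hb : 8 ≤ |b|) : 8 / 3 * qk 0 b ≤ qk 0 (b / 2) := by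
  wlog h : 0 < b generalizing b with H
  · rcases lt_trichotomy b 0 with h1 | h1 | h1
    · have := H (b := -b) (by rwa [abs_neg]) (by linarith)
      rwa [qk_neg_right, neg_div, qk_neg_right] at this
    · rw [h1, abs_zero] at hb
      linarith
    · exact absurd h1 h
  rw [abs_of_pos h] at hb
  have h1 := qk_closed b
  have h2 := qk_closed (b / 2)
  have h3 := Real.neg_one_le_sin b
  have h4 := Real.sin_le_one (b / 2)
  have hb3 : 0 < b ^ 3 := by positivity
  have h5 : b ^ 3 * qk 0 b ≤ 4 * (b + b / 8) := by rw [h1]; linarith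
  have h6 : 4 * (b / 2 - b / 8) * 8 ≤ b ^ 3 * qk 0 (b / 2) := by
    have : b ^ 3 * qk 0 (b / 2) = 8 * ((b / 2) ^ 3 * qk 0 (b / 2)) := by ring
    rw [this, h2]
    linarith
  have h7 : b ^ 3 * (8 / 3 * qk 0 b) ≤ b ^ 3 * qk 0 (b / 2) := by linarith
  exact le_of_mul_le_mul_left h7 hb3

/-- K7: two scales -/
theorem two_scale {X t : ℝ} (hX : 0 < X) (h : ∀ ρ : ZS, 8 / X ≤ |(ρ : ℂ).im - t|) :
    8 / 3 * Helper69.UG.NX X t ≤ Helper69.UG.NX (X / 2) t := by
  unfold Helper69.UG.NX
  rw [← tsum_mul_left]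
  refine Summable.tsum_le_tsum (fun ρ => ?_) ((summable_q0 hX t).mul_left _) (summable_q0 (by positivity) t)
  have h1 : zb (X / 2) t ρ = zb X t ρ / 2 := by unfold zb; ring
  rw [h1]
  have h2 : 8 ≤ |zb X t ρ| := by
    unfold zb
    rw [abs_mul, abs_of_pos hX, abs_sub_comm]
    have := h ρ
    rw [div_le_iff₀ hX] at this
    linarith
  have h3 := two_pt h2
  calc 8 / 3 * (mx ρ * qk 0 (zb X t ρ)) = mx ρ * (8 / 3 * qk 0 (zb X t ρ)) := by ring
    _ ≤ _ := mul_le_mul_of_nonneg_left h3 (mx_nonneg _)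

end Pool.Agent.Helper24.UG
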