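import Pool.Agent.Helper24.UG.Mass
import Pool.Agent.Helper56.UG.Cv

/-!
# UG: windows and the kernel (K8)
-/

set_option autoImplicit false
open MeasureTheory Set Filter Topology
open Pool.Agent.Helper57.Zeta Pool.Agent.Helper57.LH Pool.Agent.Helper57.ED Pool.Agent.Helper54.LG
open Pool.Agent.Helper57.PC (IsNontrivialZero mult)
open Pool.Agent.Helper93.UG (zc IsOrd sp)

namespace Pool.Agent.Helper24.UG

open Classical in
/-- the zeros with ordinate in `I` -/
theorem zc_fin {I : Set ℝ} {a b : ℝ} (hI : I ⊆ Icc a b) :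
    ∃ F : Finset ZS, (∀ ρ : ZS, ρ ∈ F ↔ (ρ : ℂ).im ∈ I) ∧ (zc I : ℝ) = ∑ ρ ∈ F, mx ρ := by
  refine ⟨(Pool.Agent.Helper56.UG.fin_of hI).toFinset.subtype (fun ρ => xi ρ = 0), ?_, ?_⟩
  · intro ρ
    rw [Finset.mem_subtype, Set.Finite.mem_toFinset]
    constructor
    · intro h
      exact h.2
    · intro h
      exact ⟨isNontrivialZero_iff.2 ρ.2, h⟩
  · rw [Pool.Agent.Helper56.UG.zc_eq hI, Nat.cast_sum]
    rw [Finset.sum_subtype_of_mem (f := fun ρ => mx ρ)]
    · refine Finset.sum_congr rfl fun ρ hρ => ?_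
      rw [Set.Finite.mem_toFinset] at hρ
      unfold mx
      rw [mult_eq hρ.1]
    · intro ρ hρ
      rw [Set.Finite.mem_toFinset] at hρ
      exact isNontrivialZero_iff.1 hρ.1

/-- the set of `t` whose window contains the ordinate -/
private def Wd (h : ℝ) (ρ : ZS) : Set ℝ := {t : ℝ | t - h ≤ (ρ : ℂ).im ∧ (ρ : ℂ).im < t + h}

private lemma Wd_meas (h : ℝ) (ρ : ZS) : MeasurableSet (Wd h ρ) := by
  have h1 : MeasurableSet {t : ℝ | t - h ≤ (ρ : ℂ).im} := measurableSet_le (measurable_id.sub_const h) measurable_const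
  have h2 : MeasurableSet {t : ℝ | (ρ : ℂ).im < t + h} := measurableSet_lt measurable_const (measurable_id.add_const h)
  exact h1.inter h2

private lemma zc_tsum (h t : ℝ) : ENNReal.ofReal (zc (Ico (t - h) (t + h)) : ℝ) =
    ∑' ρ : ZS, (Wd h ρ).indicator (fun _ => ENNReal.ofReal (mx ρ)) t := by
  obtain ⟨F, hF, h1⟩ := zc_fin (I := Ico (t - h) (t + h)) Ico_subset_Icc_self
  rw [h1, ENNReal.ofReal_sum_of_nonneg (fun ρ _ => mx_nonneg _), tsum_eq_sum (s := F)]
  · refine Finset.sum_congr rfl fun ρ hρ => ?_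
    have h2 : t ∈ Wd h ρ := (hF ρ).1 hρ
    rw [indicator_of_mem h2]
  · intro ρ hρ
    have h2 : t ∉ Wd h ρ := fun h3 => hρ ((hF ρ).2 h3)
    rw [indicator_of_notMem h2]

private lemma zc_E_meas (h : ℝ) : Measurable (fun t => ENNReal.ofReal (zc (Ico (t - h) (t + h)) : ℝ)) := by
  simp_rw [zc_tsum]
  exact Measurable.tsum fun ρ => measurable_const.indicator (Wd_meas h ρ)

theorem zc_meas (h : ℝ) : Measurable (fun t => (zc (Ico (t - h) (t + h)) : ℝ)) := by
  have h1 := (zc_E_meas h).ennreal_toReal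
  have h2 : (fun t => (ENNReal.ofReal (zc (Ico (t - h) (t + h)) : ℝ)).toReal) = fun t => (zc (Ico (t - h) (t + h)) : ℝ) := by
    funext t
    exact ENNReal.toReal_ofReal (Nat.cast_nonneg _)
  rwa [h2] at h1

private lemma Afun_neg (u : ℝ) : Afun (-u) = Afun u := by
  have h1 : ∀ n, Dn n (-u) = Dn n u := fun n => by
    unfold Dn
    rw [neg_sq]
  have h2 : ∀ n : ℕ, Real.cos (Real.log n * -u) = Real.cos (Real.log n * u) := fun n => by
    rw [mul_neg, Real.cos_neg]
  rw [Afun_eq', Afun_eq', neg_sq]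
  simp_rw [h1, h2]

/-- Z2: trivial count -/
theorem triv : ∃ C : ℝ, 0 < C ∧ ∀ (t : ℝ) (Z : Finset ZS), (∀ ρ ∈ Z, |(ρ : ℂ).im - t| ≤ 1) →
    ∑ ρ ∈ Z, mx ρ ≤ C * Real.log (4 + |t|) := by
  refine ⟨5 / 2 * CLA, by linarith [CLA_pos], fun t F hF => ?_⟩
  have h3 := loc_count F t hF
  have h5 : Afun t ≤ CLA * Real.log (4 + |t|) := by
    have h6 : Afun t = Afun |t| := by
      rcases abs_choice t with h | h
      · rw [h]
      · rw [h, Afun_neg]
    rw [h6]
    exact Afun_log (by linarith [abs_nonneg t]) (abs_nonneg t) (by linarith)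
  linarith

theorem zc_triv : ∃ C : ℝ, 0 < C ∧ ∀ t h : ℝ, 0 ≤ h → h ≤ 1 → (zc (Ico (t - h) (t + h)) : ℝ) ≤ C * Real.log (4 + |t|) := by
  obtain ⟨C, hC, H⟩ := triv
  refine ⟨C, hC, fun t h h0 h1 => ?_⟩
  obtain ⟨F, hF, h2⟩ := zc_fin (I := Ico (t - h) (t + h)) Ico_subset_Icc_self
  rw [h2]
  refine H t F fun ρ hρ => ?_
  have h4 := (hF ρ).1 hρ
  rw [abs_le]
  constructor <;> linarith [h4.1, h4.2]

/-- the kernel at shifted points -/
private lemma qk_shift {b d M : ℝ} (hd : |d| ≤ M) : qk 0 (b + d) ≤ 42 * 48 / 11 * (1 + M ^ 2) * qk 0 b := by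
  have h1 := qk_bound 0 (b + d)
  rw [Real.cosh_zero, mul_one] at h1
  have h2 := qk_lower' b
  have h3 : 1 + b ^ 2 ≤ 2 * (1 + M ^ 2) * (1 + (b + d) ^ 2) := by
    have h4 : d ^ 2 ≤ M ^ 2 := by
      rw [← sq_abs]
      exact pow_le_pow_left₀ (abs_nonneg d) hd 2
    have h5 : 1 + b ^ 2 ≤ 2 * (1 + d ^ 2) * (1 + (b + d) ^ 2) := by
      nlinarith [sq_nonneg (b + 2 * d), sq_nonneg (d * (b + d)), sq_nonneg d, sq_nonneg (b + d)]
    have h6 : 2 * (1 + d ^ 2) * (1 + (b + d) ^ 2) ≤ 2 * (1 + M ^ 2) * (1 + (b + d) ^ 2) :=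
      mul_le_mul_of_nonneg_right (by linarith) (by positivity)
    linarith
  calc qk 0 (b + d) ≤ 21 / (1 + (b + d) ^ 2) := (le_abs_self _).trans h1
    _ ≤ 21 * (2 * (1 + M ^ 2)) / (1 + b ^ 2) := by
        rw [div_le_div_iff₀ (by positivity) (by positivity)]
        nlinarith
    _ = 42 * 48 / 11 * (1 + M ^ 2) * (11 / 48 / (1 + b ^ 2)) := by
        field_simp
        ring
    _ ≤ 42 * 48 / 11 * (1 + M ^ 2) * qk 0 b := mul_le_mul_of_nonneg_left h2 (by positivity)

theorem NX_shift {X : ℝ} (hX : 0 < X) (t : ℝ) {w h : ℝ} (hw : |w| ≤ h) :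
    Helper69.UG.NX X (t + w) ≤ 42 * 48 / 11 * (1 + (X * h) ^ 2) * Helper69.UG.NX X t := by
  unfold Helper69.UG.NX
  rw [← tsum_mul_left]
  refine Summable.tsum_le_tsum (fun ρ => ?_) (summable_q0 hX _) ((summable_q0 hX t).mul_left _)
  have h1 : zb X (t + w) ρ = zb X t ρ + X * w := by unfold zb; ring
  rw [h1]
  have h2 := qk_shift (b := zb X t ρ) (d := X * w) (M := X * h) (by
    rw [abs_mul, abs_of_pos hX]
    exact mul_le_mul_of_nonneg_left hw hX.le)
  have h3 := mul_le_mul_of_nonneg_left h2 (mx_nonneg (ρ : ℂ))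
  linarith

theorem NX_nonneg (X t : ℝ) : 0 ≤ Helper69.UG.NX X t :=
  tsum_nonneg fun _ => mul_nonneg (mx_nonneg _) (qk_zero_nonneg _)

private lemma NX_E (X : ℝ) (hX : 0 < X) (t : ℝ) : ENNReal.ofReal (Helper69.UG.NX X t) =
    ∑' ρ : ZS, ENNReal.ofReal (mx ρ * qk 0 (zb X t ρ)) := by
  unfold Helper69.UG.NX
  exact ENNReal.ofReal_tsum_of_nonneg (fun _ => mul_nonneg (mx_nonneg _) (qk_zero_nonneg _)) (summable_q0 hX t)

private lemma term_meas (X : ℝ) (ρ : ZS) : Measurable fun t => ENNReal.ofReal (mx ρ * qk 0 (zb X t ρ)) := by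
  apply ENNReal.measurable_ofReal.comp
  apply Measurable.const_mul
  have h1 := (qk_cont 0).measurable
  have h2 : Measurable fun t : ℝ => zb X t ρ := by unfold zb; fun_prop
  exact h1.comp h2

theorem NX_measurable {X : ℝ} (hX : 0 < X) : Measurable (Helper69.UG.NX X) := by
  have h1 : Measurable fun t => ENNReal.ofReal (Helper69.UG.NX X t) := by
    simp_rw [NX_E X hX]
    exact Measurable.tsum fun ρ => term_meas X ρ
  have h2 : (fun t => (ENNReal.ofReal (Helper69.UG.NX X t)).toReal) = Helper69.UG.NX X := by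
    funext t
    exact ENNReal.toReal_ofReal (NX_nonneg X t)
  rw [← h2]
  exact h1.ennreal_toReal

/-- upper bound for the count in a window of any length -/
theorem window_le_gen {X : ℝ} (hX : 0 < X) (h t : ℝ) :
    (zc (Ico (t - h) (t + h)) : ℝ) ≤ 48 / 11 * (1 + (X * h) ^ 2) * Helper69.UG.NX X t := by
  obtain ⟨F, hF, h1⟩ := zc_fin (I := Ico (t - h) (t + h)) Ico_subset_Icc_self
  rw [h1]
  have h2 : ∑ ρ ∈ F, mx ρ ≤ ∑ ρ ∈ F, 48 / 11 * (1 + (X * h) ^ 2) * (mx ρ * qk 0 (zb X t ρ)) := by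
    refine Finset.sum_le_sum fun ρ hρ => ?_
    have h3 := (hF ρ).1 hρ
    have h4 : |zb X t ρ| ≤ X * h := by
      unfold zb
      rw [abs_mul, abs_of_pos hX]
      apply mul_le_mul_of_nonneg_left _ hX.le
      rw [abs_le]
      constructor <;> linarith [h3.1, h3.2]
    have h5 : zb X t ρ ^ 2 ≤ (X * h) ^ 2 := by
      rw [← sq_abs]
      exact pow_le_pow_left₀ (abs_nonneg _) h4 2
    have h6 := qk_lower' (zb X t ρ)
    have h7 : 1 ≤ 48 / 11 * (1 + (X * h) ^ 2) * qk 0 (zb X t ρ) := by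
      have h8 : 11 / 48 / (1 + (X * h) ^ 2) ≤ qk 0 (zb X t ρ) := by
        refine le_trans ?_ h6
        apply div_le_div_of_nonneg_left (by norm_num) (by positivity)
        linarith
      have h9 := mul_le_mul_of_nonneg_left h8 (a := 48 / 11 * (1 + (X * h) ^ 2)) (by positivity)
      have h10 : 48 / 11 * (1 + (X * h) ^ 2) * (11 / 48 / (1 + (X * h) ^ 2)) = 1 := by
        field_simp
      linarith
    have h11 := mul_le_mul_of_nonneg_left h7 (mx_nonneg (ρ : ℂ))
    linarith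
  refine h2.trans ?_
  rw [← Finset.mul_sum]
  apply mul_le_mul_of_nonneg_left _ (by positivity)
  exact (summable_q0 hX t).sum_le_tsum F fun ρ _ => mul_nonneg (mx_nonneg _) (qk_zero_nonneg _)

theorem window_le : ∃ C : ℝ, 0 < C ∧ ∀ X : ℝ, 0 < X → ∀ t,
    (zc (Ico (t - Real.pi / X) (t + Real.pi / X)) : ℝ) ≤ C * Helper69.UG.NX X t := by
  have hpi := Real.pi_pos
  refine ⟨48 / 11 * (1 + Real.pi ^ 2), by positivity, fun X hX t => ?_⟩
  have h1 := window_le_gen hX (Real.pi / X) t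
  rwa [mul_div_cancel₀ _ hX.ne'] at h1

private lemma kern_meas (X c : ℝ) : Measurable fun s => ENNReal.ofReal (c * qk 0 (X * s)) := by
  apply ENNReal.measurable_ofReal.comp
  apply Measurable.const_mul
  exact (qk_cont 0).measurable.comp (measurable_const_mul X)

private lemma one_zero {X : ℝ} (hX : 0 < X) (t h : ℝ) (ρ : ZS) :
    ∫⁻ s, ENNReal.ofReal (X / (2 * Real.pi) * qk 0 (X * s)) * (Wd h ρ).indicator (fun _ => ENNReal.ofReal (mx ρ)) (t + s) =
      ∫⁻ w in Ico (-h) h, ENNReal.ofReal (X / (2 * Real.pi)) * ENNReal.ofReal (mx ρ * qk 0 (zb X (t + w) ρ)) := by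
  have hpi := Real.pi_pos
  rw [← lintegral_sub_left_eq_self (fun s => ENNReal.ofReal (X / (2 * Real.pi) * qk 0 (X * s)) *
    (Wd h ρ).indicator (fun _ => ENNReal.ofReal (mx ρ)) (t + s)) ((ρ : ℂ).im - t),
    ← lintegral_indicator measurableSet_Ico]
  congr 1
  funext w
  have h1 : X * ((ρ : ℂ).im - t - w) = -(zb X (t + w) ρ) := by unfold zb; ring
  by_cases hw : w ∈ Ico (-h) h
  · have h2 : t + ((ρ : ℂ).im - t - w) ∈ Wd h ρ := by
      constructor <;> linarith [hw.1, hw.2]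
    rw [indicator_of_mem hw, indicator_of_mem h2, h1, qk_neg_right, ← ENNReal.ofReal_mul (by
      have := qk_zero_nonneg (zb X (t + w) ρ)
      positivity), ← ENNReal.ofReal_mul (by positivity)]
    congr 1
    ring
  · have h2 : t + ((ρ : ℂ).im - t - w) ∉ Wd h ρ := by
      intro h3
      apply hw
      constructor <;> linarith [h3.1, h3.2]
    rw [indicator_of_notMem hw, indicator_of_notMem h2, mul_zero]

private lemma win_lint {X : ℝ} (hX : 0 < X) (t h : ℝ) :
    ∫⁻ s, ENNReal.ofReal (X / (2 * Real.pi) * qk 0 (X * s) * (zc (Ico (t + s - h) (t + s + h)) : ℝ)) =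
      ∫⁻ w in Ico (-h) h, ENNReal.ofReal (X / (2 * Real.pi) * Helper69.UG.NX X (t + w)) := by
  have hpi := Real.pi_pos
  have h1 : ∀ s, ENNReal.ofReal (X / (2 * Real.pi) * qk 0 (X * s) * (zc (Ico (t + s - h) (t + s + h)) : ℝ)) =
      ∑' ρ : ZS, ENNReal.ofReal (X / (2 * Real.pi) * qk 0 (X * s)) *
        (Wd h ρ).indicator (fun _ => ENNReal.ofReal (mx ρ)) (t + s) := by
    intro s
    rw [ENNReal.ofReal_mul (by
      have := qk_zero_nonneg (X * s)
      positivity), zc_tsum, ENNReal.tsum_mul_left]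
  have h2 : ∀ w, ENNReal.ofReal (X / (2 * Real.pi) * Helper69.UG.NX X (t + w)) =
      ∑' ρ : ZS, ENNReal.ofReal (X / (2 * Real.pi)) * ENNReal.ofReal (mx ρ * qk 0 (zb X (t + w) ρ)) := by
    intro w
    rw [ENNReal.ofReal_mul (by positivity), NX_E X hX, ENNReal.tsum_mul_left]
  simp_rw [h1, h2]
  rw [lintegral_tsum, lintegral_tsum]
  · congr 1
    funext ρ
    exact one_zero hX t h ρ
  · intro ρ
    apply Measurable.aemeasurable
    apply Measurable.const_mul
    exact (term_meas X ρ).comp (measurable_const_add t)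
  · intro ρ
    apply Measurable.aemeasurable
    apply (kern_meas X _).mul
    exact (measurable_const.indicator (Wd_meas h ρ)).comp (measurable_const_add t)

theorem NX_intervalIntegrable {X : ℝ} (hX : 0 < X) (t h : ℝ) :
    IntegrableOn (fun w => Helper69.UG.NX X (t + w)) (Icc (-h) h) := by
  refine Measure.integrableOn_of_bounded (M := 42 * 48 / 11 * (1 + (X * h) ^ 2) * Helper69.UG.NX X t)
    isCompact_Icc.measure_lt_top.ne ((NX_measurable hX).comp (measurable_const_add t)).aestronglyMeasurable ?_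
  filter_upwards [ae_restrict_mem measurableSet_Icc] with w hw
  rw [Real.norm_eq_abs, abs_of_nonneg (NX_nonneg _ _)]
  exact NX_shift hX t (abs_le.2 hw)

/-- windows of any length and the kernel -/
theorem window_gen {X : ℝ} (hX : 0 < X) (t : ℝ) {h : ℝ} (hh0 : 0 ≤ h) :
    Integrable (fun s => X / (2 * Real.pi) * qk 0 (X * s) * (zc (Ico (t + s - h) (t + s + h)) : ℝ)) ∧
    ∫ s, X / (2 * Real.pi) * qk 0 (X * s) * (zc (Ico (t + s - h) (t + s + h)) : ℝ) =
      X / (2 * Real.pi) * ∫ w in (-h)..h, Helper69.UG.NX X (t + w) := by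
  have hpi := Real.pi_pos
  have hI : IntegrableOn (fun w => X / (2 * Real.pi) * Helper69.UG.NX X (t + w)) (Ico (-h) h) :=
    ((NX_intervalIntegrable hX t h).mono_set Ico_subset_Icc_self).const_mul _
  have hI0 : 0 ≤ᵐ[volume.restrict (Ico (-h) h)] fun w => X / (2 * Real.pi) * Helper69.UG.NX X (t + w) := by
    filter_upwards with w
    have := NX_nonneg X (t + w)
    simp only [Pi.zero_apply]
    positivity
  have h1 := win_lint hX t h
  rw [← ofReal_integral_eq_lintegral_ofReal hI hI0] at h1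
  have hm : AEStronglyMeasurable (fun s => X / (2 * Real.pi) * qk 0 (X * s) * (zc (Ico (t + s - h) (t + s + h)) : ℝ)) := by
    apply Measurable.aestronglyMeasurable
    apply Measurable.mul
    · exact ((qk_cont 0).measurable.comp (measurable_const_mul X)).const_mul _
    · exact (zc_meas h).comp (measurable_const_add t)
  have h0 : ∀ s, 0 ≤ X / (2 * Real.pi) * qk 0 (X * s) * (zc (Ico (t + s - h) (t + s + h)) : ℝ) := by
    intro s
    have := qk_zero_nonneg (X * s)
    positivity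
  refine ⟨⟨hm, ?_⟩, ?_⟩
  · rw [hasFiniteIntegral_iff_ofReal (Filter.Eventually.of_forall h0), h1]
    exact ENNReal.ofReal_lt_top
  · rw [integral_eq_lintegral_of_nonneg_ae (Filter.Eventually.of_forall h0) hm, h1, ENNReal.toReal_ofReal (integral_nonneg_of_ae hI0),
      integral_const_mul, intervalIntegral.integral_of_le (by linarith), integral_Ico_eq_integral_Ioc]

/-- K8: windows and the kernel -/
theorem window {X : ℝ} (hX : 0 < X) (t : ℝ) :
    Integrable (fun s => X / (2 * Real.pi) * qk 0 (X * s) * (zc (Ico (t + s - Real.pi / X) (t + s + Real.pi / X)) : ℝ)) ∧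
    ∫ s, X / (2 * Real.pi) * qk 0 (X * s) * (zc (Ico (t + s - Real.pi / X) (t + s + Real.pi / X)) : ℝ) =
      X / (2 * Real.pi) * ∫ w in (-(Real.pi / X))..(Real.pi / X), Helper69.UG.NX X (t + w) :=
  window_gen hX t (div_pos Real.pi_pos hX).le

end Pool.Agent.Helper24.UG
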