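import Pool.Agent.Helper93.UG.Top

/-!
# UG: consequence for fixed `r`
-/

set_option autoImplicit false
open MeasureTheory Set Filter Topology
open Pool.Agent.Helper57.PC Pool.Agent.Helper93.UG

namespace Pool.Agent.Helper24.UG

lemma tendsto_ratio : Tendsto (fun T : ℝ => Real.log T / Real.log (Real.log T)) atTop atTop := by
  have h1 : Tendsto (fun x : ℝ => x / Real.log x) atTop atTop := by
    have h2 : Tendsto (fun x : ℝ => Real.log x / x) atTop (𝓝 0) := by
      have := Real.isLittleO_log_id_atTop.tendsto_div_nhds_zero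
      simpa using this
    have h3 : Tendsto (fun x : ℝ => Real.log x / x) atTop (𝓝[>] 0) := by
      refine tendsto_nhdsWithin_iff.2 ⟨h2, ?_⟩
      filter_upwards [eventually_gt_atTop 1] with x hx
      exact div_pos (Real.log_pos hx) (by linarith)
    have h4 := h3.inv_tendsto_nhdsGT_zero
    refine h4.congr fun x => ?_
    simp
  exact h1.comp Real.tendsto_log_atTop

/-- For each fixed `r`: a positive proportion of long and of short `r`-gaps. -/
theorem fixed_r (h : Final) : ∃ Θ : ℝ, 0 < Θ ∧ ∀ r : ℕ, 1 ≤ r → ∃ c T₁ : ℝ, 0 < c ∧ ∀ T : ℝ, T₁ ≤ T →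
    c * (T * Real.log T) ≤ ((Glong T (r + Θ * √r) r).ncard : ℝ) ∧
    c * (T * Real.log T) ≤ ((Gshort T (r - Θ * √r) r).ncard : ℝ) := by
  obtain ⟨Θ, A, T₀, hΘ, -, H⟩ := h
  refine ⟨Θ, hΘ, fun r hr => ?_⟩
  have h1 : ∀ᶠ T : ℝ in atTop, (r : ℝ) / Θ ≤ Real.log T / Real.log (Real.log T) := tendsto_ratio.eventually_ge_atTop _
  obtain ⟨T₂, hT₂⟩ := eventually_atTop.1 h1
  refine ⟨Real.exp (-(A * r)), max T₀ T₂, Real.exp_pos _, fun T hT => ?_⟩
  refine H T ((le_max_left _ _).trans hT) r hr ?_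
  have h2 := hT₂ T ((le_max_right _ _).trans hT)
  rw [div_le_iff₀ hΘ] at h2
  linarith

end Pool.Agent.Helper24.UG
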