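import Pool.Agent.Helper56.UG.Cv

/-!
# UG: the two measure statements imply the theorem

For `r` take `ℓ = r ± Θ √r`, `m = ⌈2 c₀ / r⌉`, `c = m ℓ`. The window `[t, t + c sp T)` consists of `m` windows of length
`ℓ sp T`, and one of them has the required number of zeros.
-/

set_option autoImplicit false
open MeasureTheory Set Filter Topology
open Pool.Agent.Helper57.PC Pool.Agent.Helper93.UG

namespace Pool.Agent.Helper24.UG

lemma shift_cover {S S' : Set ℝ} {T h : ℝ} (hh : 0 ≤ h) (m : ℕ)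
    (H : ∀ t ∈ S, t ≤ 2 * T ∧ ∃ i : ℕ, i < m ∧ (t + i * h ≤ 2 * T → t + i * h ∈ S')) :
    volume S ≤ m * volume S' + ENNReal.ofReal (m * h) := by
  have h1 : S ⊆ (⋃ i ∈ Finset.range m, (fun t : ℝ => t + i * h) ⁻¹' S') ∪ Icc (2 * T - m * h) (2 * T) := by
    intro t ht
    obtain ⟨h2, i, hi, h3⟩ := H t ht
    by_cases h4 : t + i * h ≤ 2 * T
    · left
      simp only [Set.mem_iUnion, Finset.mem_range]
      exact ⟨i, hi, h3 h4⟩
    · right
      push Not at h4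
      refine ⟨?_, h2⟩
      have h5 : (i : ℝ) * h ≤ m * h := mul_le_mul_of_nonneg_right (by exact_mod_cast hi.le) hh
      linarith
  refine (measure_mono h1).trans ((measure_union_le _ _).trans ?_)
  refine add_le_add ?_ ?_
  · refine (measure_biUnion_finset_le _ _).trans ?_
    have h2 : ∀ i ∈ Finset.range m, volume ((fun t : ℝ => t + i * h) ⁻¹' S') = volume S' := fun i _ =>
      measure_preimage_add_right volume _ _
    rw [Finset.sum_congr rfl h2, Finset.sum_const, Finset.card_range, nsmul_eq_mul]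
  · rw [Real.volume_Icc]
    apply ENNReal.ofReal_le_ofReal
    linarith

/-- the numbers -/
lemma core {A E K T c D h : ℝ} {r m n : ℕ} {S S' : Set ℝ} (hA : 0 < A) (hE : 1 ≤ E) (hK : 1 ≤ K) (hT0 : 0 < T)
    (hr : 1 ≤ r) (hm : 1 ≤ m) (hmK : (m : ℝ) ≤ K) (hc : 0 < c) (hcK : c ≤ K * r) (hh : m * h = c * sp T)
    (hD : D ≤ E * (c * sp T)) (hD0 : 0 < D)
    (hL : Real.exp 2 ≤ Real.log T) (hrL : (A * K + 2 * Real.pi * E * K ^ 2) * r ≤ Real.log T / 2)
    (h1 : ENNReal.ofReal (Real.exp (-(A * c)) * T) ≤ volume S)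
    (h2 : volume S ≤ m * volume S' + ENNReal.ofReal (m * h))
    (h3 : volume S' ≤ ENNReal.ofReal (D * ((n : ℝ) + 1))) :
    Real.exp (-((A * K + 2 * Real.pi * E * K ^ 2 + 1) * r)) * (T * Real.log T) ≤ n := by
  have hpi := Real.pi_pos
  have he2 : (7:ℝ) ≤ Real.exp 2 := by
    have h5 : Real.exp 2 = Real.exp 1 * Real.exp 1 := by rw [← Real.exp_add]; norm_num
    have h6 := Real.exp_one_gt_d9
    rw [h5]
    nlinarith
  have hL0 : 0 < Real.log T := by linarith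
  have hsp : 0 < sp T := by unfold sp; positivity
  have hr1 : (1 : ℝ) ≤ r := by exact_mod_cast hr
  have hm1 : (1 : ℝ) ≤ m := by exact_mod_cast hm
  have hn0 : (0 : ℝ) ≤ n := Nat.cast_nonneg n
  -- the real inequality
  have h4 : Real.exp (-(A * c)) * T ≤ m * (D * ((n : ℝ) + 1)) + m * h := by
    have h5 : ENNReal.ofReal (Real.exp (-(A * c)) * T) ≤ ENNReal.ofReal (m * (D * ((n : ℝ) + 1)) + m * h) := by
      rw [ENNReal.ofReal_add (by positivity) (by rw [hh]; positivity), ENNReal.ofReal_mul (p := (m : ℝ)) (by positivity),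
        ENNReal.ofReal_natCast]
      exact h1.trans (h2.trans (add_le_add (mul_le_mul_right h3 _) le_rfl))
    exact (ENNReal.ofReal_le_ofReal_iff (by
      have : 0 ≤ m * (D * ((n : ℝ) + 1)) := by positivity
      have : 0 ≤ m * h := by rw [hh]; positivity
      linarith)).1 h5
  have h5 : Real.exp (-(A * c)) * T ≤ K * (E * (K * r * sp T)) * ((n : ℝ) + 2) := by
    have h6 : c * sp T ≤ K * r * sp T := mul_le_mul_of_nonneg_right hcK hsp.le
    have h7 : m * (D * ((n : ℝ) + 1)) ≤ K * (E * (K * r * sp T)) * ((n : ℝ) + 1) := by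
      have h8 : D ≤ E * (K * r * sp T) := hD.trans (mul_le_mul_of_nonneg_left h6 (by linarith))
      calc m * (D * ((n : ℝ) + 1)) ≤ K * (D * ((n : ℝ) + 1)) := mul_le_mul_of_nonneg_right hmK (by positivity)
        _ ≤ K * ((E * (K * r * sp T)) * ((n : ℝ) + 1)) := by
            apply mul_le_mul_of_nonneg_left _ (by linarith)
            exact mul_le_mul_of_nonneg_right h8 (by positivity)
        _ = K * (E * (K * r * sp T)) * ((n : ℝ) + 1) := by ring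
    have h9 : m * h ≤ K * (E * (K * r * sp T)) := by
      rw [hh]
      refine h6.trans ?_
      have h10 : 0 ≤ K * r * sp T := by positivity
      have h11 : 1 ≤ K * E := by nlinarith
      nlinarith
    calc Real.exp (-(A * c)) * T ≤ K * (E * (K * r * sp T)) * ((n : ℝ) + 1) + K * (E * (K * r * sp T)) := by linarith
      _ = K * (E * (K * r * sp T)) * ((n : ℝ) + 2) := by ring
  have h6 : Real.exp (-(A * K * r)) ≤ Real.exp (-(A * c)) := by
    apply Real.exp_le_exp.2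
    have : A * c ≤ A * (K * r) := mul_le_mul_of_nonneg_left hcK hA.le
    linarith
  -- `e^{-A₁ r} T L ≤ n + 2`
  set A₁ : ℝ := A * K + 2 * Real.pi * E * K ^ 2 with hA₁
  have h7 : Real.exp (-(A₁ * r)) * (T * Real.log T) ≤ (n : ℝ) + 2 := by
    have h8 : 2 * Real.pi * E * K ^ 2 * r ≤ Real.exp (2 * Real.pi * E * K ^ 2 * r) := by
      have := Real.add_one_le_exp (2 * Real.pi * E * K ^ 2 * r)
      linarith
    have h9 : Real.exp (-(A₁ * r)) = Real.exp (-(A * K * r)) / Real.exp (2 * Real.pi * E * K ^ 2 * r) := by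
      rw [← Real.exp_sub]
      congr 1
      rw [hA₁]
      ring
    have h10 : K * (E * (K * r * sp T)) = (2 * Real.pi * E * K ^ 2 * r) / Real.log T := by
      unfold sp
      ring
    rw [h10] at h5
    have h11 : Real.exp (-(A * K * r)) * T * Real.log T ≤ (2 * Real.pi * E * K ^ 2 * r) * ((n : ℝ) + 2) := by
      have h12 : Real.exp (-(A * K * r)) * T ≤ (2 * Real.pi * E * K ^ 2 * r) / Real.log T * ((n : ℝ) + 2) :=
        (mul_le_mul_of_nonneg_right h6 hT0.le).trans h5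
      calc Real.exp (-(A * K * r)) * T * Real.log T
          ≤ ((2 * Real.pi * E * K ^ 2 * r) / Real.log T * ((n : ℝ) + 2)) * Real.log T :=
            mul_le_mul_of_nonneg_right h12 hL0.le
        _ = (2 * Real.pi * E * K ^ 2 * r) * ((n : ℝ) + 2) := by
            field_simp
    rw [h9, div_mul_eq_mul_div, div_le_iff₀ (Real.exp_pos _)]
    calc Real.exp (-(A * K * r)) * (T * Real.log T) = Real.exp (-(A * K * r)) * T * Real.log T := by ring
      _ ≤ (2 * Real.pi * E * K ^ 2 * r) * ((n : ℝ) + 2) := h11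
      _ ≤ Real.exp (2 * Real.pi * E * K ^ 2 * r) * ((n : ℝ) + 2) := mul_le_mul_of_nonneg_right h8 (by positivity)
      _ = ((n : ℝ) + 2) * Real.exp (2 * Real.pi * E * K ^ 2 * r) := by ring
  -- `4 ≤ e^{-A₁ r} T L`
  have h8 : 4 ≤ Real.exp (-(A₁ * r)) * (T * Real.log T) := by
    have h9 : 1 ≤ Real.exp (-(A₁ * r)) * T := by
      have h10 : T = Real.exp (Real.log T) := (Real.exp_log hT0).symm
      have h11 : Real.exp (-(A₁ * r)) * T = Real.exp (Real.log T - A₁ * r) := by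
        conv_lhs => rw [h10]
        rw [← Real.exp_add]
        congr 1
        ring
      rw [h11]
      apply Real.one_le_exp
      linarith
    calc (4 : ℝ) ≤ 1 * Real.log T := by linarith
      _ ≤ (Real.exp (-(A₁ * r)) * T) * Real.log T := mul_le_mul_of_nonneg_right h9 hL0.le
      _ = Real.exp (-(A₁ * r)) * (T * Real.log T) := by ring
  have h9 : Real.exp (-((A₁ + 1) * r)) * (T * Real.log T) ≤ (1 / 2) * (Real.exp (-(A₁ * r)) * (T * Real.log T)) := by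
    have h10 : Real.exp (-((A₁ + 1) * r)) = Real.exp (-(r : ℝ)) * Real.exp (-(A₁ * r)) := by
      rw [← Real.exp_add]
      congr 1
      ring
    have h11 : Real.exp (-(r : ℝ)) ≤ 1 / 2 := by
      have h12 : Real.exp (-(r : ℝ)) ≤ Real.exp (-1) := Real.exp_le_exp.2 (by linarith)
      have h13 : Real.exp (-1) ≤ 1 / 2 := by
        rw [Real.exp_neg, inv_le_comm₀ (Real.exp_pos _) (by norm_num)]
        have := Real.exp_one_gt_d9
        norm_num
        linarith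
      linarith
    rw [h10]
    calc Real.exp (-(r : ℝ)) * Real.exp (-(A₁ * r)) * (T * Real.log T)
        = Real.exp (-(r : ℝ)) * (Real.exp (-(A₁ * r)) * (T * Real.log T)) := by ring
      _ ≤ (1 / 2) * (Real.exp (-(A₁ * r)) * (T * Real.log T)) := mul_le_mul_of_nonneg_right h11 (by linarith)
  linarith

lemma sqrt_contra {θ Θ c : ℝ} {r m : ℕ} (hθ : 0 < θ) (hr : 1 ≤ r) (hm : 1 ≤ m) (hc : m * r / 2 ≤ c)
    (hK : 2 * m * Θ ^ 2 < θ ^ 2) : m * (Θ * √r) < θ * √c := by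
  have hr1 : (1 : ℝ) ≤ r := by exact_mod_cast hr
  have hm1 : (1 : ℝ) ≤ m := by exact_mod_cast hm
  have hc0 : 0 ≤ c := le_trans (by positivity) hc
  have h1 : (m * (Θ * √r)) ^ 2 < (θ * √c) ^ 2 := by
    have h2 : (m * (Θ * √r)) ^ 2 = m ^ 2 * Θ ^ 2 * r := by
      rw [mul_pow, mul_pow, Real.sq_sqrt (by linarith)]
      ring
    have h3 : (θ * √c) ^ 2 = θ ^ 2 * c := by
      rw [mul_pow, Real.sq_sqrt hc0]
    rw [h2, h3]
    have h4 : θ ^ 2 * (m * r / 2) ≤ θ ^ 2 * c := mul_le_mul_of_nonneg_left hc (by positivity)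
    have h5 : (m : ℝ) ^ 2 * Θ ^ 2 * r < θ ^ 2 * (m * r / 2) := by
      have h6 : 0 < (m : ℝ) * r / 2 := by positivity
      calc (m : ℝ) ^ 2 * Θ ^ 2 * r = (2 * m * Θ ^ 2) * (m * r / 2) := by ring
        _ < θ ^ 2 * (m * r / 2) := mul_lt_mul_of_pos_right hK h6
    linarith
  exact lt_of_pow_lt_pow_left₀ 2 (by positivity) h1

lemma pick_m {c₀ : ℝ} (hc₀ : 1 ≤ c₀) {r : ℕ} (hr : 1 ≤ r) :
    ∃ m : ℕ, 1 ≤ m ∧ (m : ℝ) ≤ 2 * c₀ + 1 ∧ 2 * c₀ ≤ m * r := by
  have hr1 : (1 : ℝ) ≤ r := by exact_mod_cast hr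
  have h0 : 0 < 2 * c₀ / r := by positivity
  refine ⟨⌈2 * c₀ / r⌉₊, Nat.one_le_iff_ne_zero.2 (Nat.ceil_pos.2 h0).ne', ?_, ?_⟩
  · have h1 := Nat.ceil_lt_add_one h0.le
    have h2 : 2 * c₀ / r ≤ 2 * c₀ := div_le_self (by linarith) hr1
    linarith
  · have h1 := Nat.le_ceil (2 * c₀ / r)
    rwa [div_le_iff₀ (by linarith)] at h1

lemma sqrt_le_self' {r : ℕ} (hr : 1 ≤ r) : √(r : ℝ) ≤ r := by
  have hr1 : (1 : ℝ) ≤ r := by exact_mod_cast hr
  rw [Real.sqrt_le_left (by linarith)]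
  nlinarith

/-- sizes at large `T` -/
lemma big {A₁ T : ℝ} (hA₁ : 0 < A₁) (hT : Real.exp (Real.exp (2 + A₁)) ≤ T) :
    Real.exp 1 ≤ T ∧ 0 < T ∧ Real.exp 2 ≤ Real.log T ∧ A₁ ≤ Real.log (Real.log T) ∧ 1 ≤ Real.log (Real.log T) := by
  have h0 : 0 < T := lt_of_lt_of_le (Real.exp_pos _) hT
  have h1 : Real.exp (2 + A₁) ≤ Real.log T := by
    rw [← Real.log_exp (Real.exp (2 + A₁))]
    exact Real.log_le_log (Real.exp_pos _) hT
  have h2 : 2 + A₁ ≤ Real.log (Real.log T) := by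
    rw [← Real.log_exp (2 + A₁)]
    exact Real.log_le_log (Real.exp_pos _) h1
  refine ⟨?_, h0, ?_, by linarith, by linarith⟩
  · refine le_trans (Real.exp_le_exp.2 ?_) hT
    exact Real.one_le_exp (by linarith)
  · exact le_trans (Real.exp_le_exp.2 (by linarith)) h1

/-- everything about `r`, `m`, `c` -/
lemma small_r {A' K E Θ T : ℝ} {r : ℕ} (hA : 0 < A') (hK : 1 ≤ K) (hE : 1 ≤ E)
    (hΘ0 : 0 < Θ) (hΘ1 : Θ ≤ 1 / 2)
    (hT : Real.exp (Real.exp (2 + (A' * K + 2 * Real.pi * E * K ^ 2))) ≤ T)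
    (hrT : (r : ℝ) ≤ Θ * (Real.log T / Real.log (Real.log T))) :
    (A' * K + 2 * Real.pi * E * K ^ 2) * r ≤ Real.log T / 2 := by
  have hpi := Real.pi_pos
  have hA1 : 0 < A' * K + 2 * Real.pi * E * K ^ 2 := by positivity
  obtain ⟨-, -, b3, b4, b5⟩ := big hA1 hT
  set A₁ := A' * K + 2 * Real.pi * E * K ^ 2
  have hL : 0 < Real.log T := lt_of_lt_of_le (Real.exp_pos _) b3
  have hLL : 0 < Real.log (Real.log T) := by linarith
  calc A₁ * r ≤ Real.log (Real.log T) * (Θ * (Real.log T / Real.log (Real.log T))) :=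
        mul_le_mul b4 hrT (Nat.cast_nonneg r) hLL.le
    _ = Θ * Real.log T := by field_simp
    _ ≤ 1 / 2 * Real.log T := mul_le_mul_of_nonneg_right hΘ1 hL.le
    _ = Real.log T / 2 := by ring

/-- pigeonhole in the window -/
lemma pigeon_gt {t h : ℝ} {m r : ℕ} (hh : 0 ≤ h) (hm : 1 ≤ m) (H : m * r < zc (Ico t (t + m * h))) :
    ∃ i : ℕ, i < m ∧ r < zc (Ico (t + i * h) (t + (i + 1) * h)) := by
  by_contra hcon
  push Not at hcon
  rw [Pool.Agent.Helper56.UG.split t h m hh hm] at H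
  have h1 : ∑ i ∈ Finset.range m, zc (Ico (t + i * h) (t + (i + 1) * h)) ≤ ∑ i ∈ Finset.range m, r :=
    Finset.sum_le_sum fun i hi => hcon i (Finset.mem_range.1 hi)
  rw [Finset.sum_const, Finset.card_range, smul_eq_mul] at h1
  omega

lemma pigeon_lt {t h : ℝ} {m r : ℕ} (hh : 0 ≤ h) (hm : 1 ≤ m) (H : zc (Ico t (t + m * h)) < m * r) :
    ∃ i : ℕ, i < m ∧ zc (Ico (t + i * h) (t + (i + 1) * h)) < r := by
  by_contra hcon
  push Not at hcon
  rw [Pool.Agent.Helper56.UG.split t h m hh hm] at H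
  have h1 : ∑ i ∈ Finset.range m, r ≤ ∑ i ∈ Finset.range m, zc (Ico (t + i * h) (t + (i + 1) * h)) :=
    Finset.sum_le_sum fun i hi => hcon i (Finset.mem_range.1 hi)
  rw [Finset.sum_const, Finset.card_range, smul_eq_mul] at h1
  omega

lemma half_short {θ A A' c₀ c₁ Θ K E T : ℝ} {r : ℕ} (hθ : 0 < θ) (hA : 0 < A) (hAA : A ≤ A') (hc₀ : 1 ≤ c₀)
    (hK : 2 * (2 * c₀ + 1) ≤ K) (hE : 1 ≤ E) (hΘ0 : 0 < Θ) (hΘ1 : Θ ≤ 1 / 2) (hΘ2 : K * Θ ≤ c₁) (hΘ3 : K * Θ ^ 2 < θ ^ 2)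
    (hT : Real.exp (Real.exp (2 + (A' * K + 2 * Real.pi * E * K ^ 2))) ≤ T)
    (H : ∀ c : ℝ, c₀ ≤ c → c ≤ c₁ * (Real.log T / Real.log (Real.log T)) →
      ENNReal.ofReal (Real.exp (-(A * c)) * T) ≤
        volume {t : ℝ | T ≤ t ∧ t ≤ 2 * T ∧ c + θ * √c ≤ (zc (Ico t (t + c * sp T)) : ℝ)})
    (hr : 1 ≤ r) (hrT : (r : ℝ) ≤ Θ * (Real.log T / Real.log (Real.log T))) :
    Real.exp (-((A' * K + 2 * Real.pi * E * K ^ 2 + 1) * r)) * (T * Real.log T) ≤ ((Gshort T (r - Θ * √r) r).ncard : ℝ) := by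
  have hpi := Real.pi_pos
  have hA' : 0 < A' := by linarith
  have hK1 : 1 ≤ K := by linarith
  have hr1 : (1 : ℝ) ≤ r := by exact_mod_cast hr
  obtain ⟨b1, b2, b3, b4, b5⟩ := big (A₁ := A' * K + 2 * Real.pi * E * K ^ 2) (by positivity) hT
  have hL : 0 < Real.log T := lt_of_lt_of_le (Real.exp_pos _) b3
  have hLL : 0 < Real.log T / Real.log (Real.log T) := by
    have : 0 < Real.log (Real.log T) := by linarith
    positivity
  have hsp := Pool.Agent.Helper56.UG.sp_pos b1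
  obtain ⟨m, hm, hm2, hm3⟩ := pick_m hc₀ hr
  have hm1 : (1 : ℝ) ≤ m := by exact_mod_cast hm
  have hsq := sqrt_le_self' hr
  have hsq0 : 0 ≤ √(r : ℝ) := Real.sqrt_nonneg _
  have hΘr : Θ * √(r : ℝ) ≤ r / 2 := by
    have : Θ * √(r : ℝ) ≤ 1 / 2 * r := mul_le_mul hΘ1 hsq hsq0 (by norm_num)
    linarith
  have hΘr0 : 0 ≤ Θ * √(r : ℝ) := by positivity
  set ℓ : ℝ := r - Θ * √(r : ℝ) with hℓ
  have hℓ1 : (r : ℝ) / 2 ≤ ℓ := by linarith
  have hℓ2 : ℓ ≤ r := by linarith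
  have hℓ0 : 0 < ℓ := by linarith
  set c : ℝ := m * ℓ with hc
  have hcl : m * r / 2 ≤ c := by
    have : (m : ℝ) * (r / 2) ≤ m * ℓ := mul_le_mul_of_nonneg_left hℓ1 (by linarith)
    linarith
  have hc1 : c₀ ≤ c := by linarith
  have hmK : 2 * (m : ℝ) ≤ K := by linarith
  have hcK : c ≤ K * r := by
    have : (m : ℝ) * ℓ ≤ K * r := mul_le_mul (by linarith) hℓ2 hℓ0.le (by linarith)
    exact this
  have hc2 : c ≤ c₁ * (Real.log T / Real.log (Real.log T)) := by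
    refine hcK.trans ?_
    calc K * r ≤ K * (Θ * (Real.log T / Real.log (Real.log T))) := mul_le_mul_of_nonneg_left hrT (by linarith)
      _ = (K * Θ) * (Real.log T / Real.log (Real.log T)) := by ring
      _ ≤ c₁ * (Real.log T / Real.log (Real.log T)) := mul_le_mul_of_nonneg_right hΘ2 hLL.le
  have hc0 : 0 < c := by linarith
  have hmain := H c hc1 hc2
  have hm0 : 0 ≤ ℓ * sp T := by positivity
  have hmh : (m : ℝ) * (ℓ * sp T) = c * sp T := by rw [hc]; ring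
  have hcon := sqrt_contra (θ := θ) (Θ := Θ) (c := c) hθ hr hm hcl (by
    have : 2 * (m : ℝ) * Θ ^ 2 ≤ K * Θ ^ 2 := mul_le_mul_of_nonneg_right hmK (by positivity)
    linarith)
  refine core (S := {t : ℝ | T ≤ t ∧ t ≤ 2 * T ∧ c + θ * √c ≤ (zc (Ico t (t + c * sp T)) : ℝ)})
    (S' := {t : ℝ | T ≤ t ∧ t ≤ 2 * T ∧ r < zc (Ico t (t + ℓ * sp T))}) (D := ℓ * sp T) (h := ℓ * sp T) (c := c) (m := m)
    hA' hE hK1 b2 hr hm (by linarith) hc0 hcK hmh ?_ (by positivity) b3 (small_r hA' hK1 hE hΘ0 hΘ1 hT hrT) ?_ ?_ ?_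
  · have h1 : ℓ * sp T ≤ c * sp T := by
      rw [← hmh]
      nlinarith
    have h2 : 0 ≤ c * sp T := by positivity
    nlinarith
  · refine le_trans (ENNReal.ofReal_le_ofReal ?_) hmain
    apply mul_le_mul_of_nonneg_right _ b2.le
    apply Real.exp_le_exp.2
    have : A * c ≤ A' * c := mul_le_mul_of_nonneg_right hAA hc0.le
    linarith
  · apply shift_cover hm0
    rintro t ⟨t1, t2, t3⟩
    refine ⟨t2, ?_⟩
    rw [← hmh] at t3
    have h1 : (m : ℝ) * r < zc (Ico t (t + m * (ℓ * sp T))) := by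
      refine lt_of_lt_of_le ?_ t3
      have : (m : ℝ) * r = c + m * (Θ * √(r : ℝ)) := by rw [hc, hℓ]; ring
      linarith
    obtain ⟨i, hi, hi2⟩ := pigeon_gt hm0 hm (by exact_mod_cast h1)
    refine ⟨i, hi, fun h3 => ⟨?_, h3, ?_⟩⟩
    · have : 0 ≤ (i : ℝ) * (ℓ * sp T) := by positivity
      linarith
    · convert hi2 using 3
      ring
  · exact Pool.Agent.Helper56.UG.cvp T ℓ b1 hℓ0 r

lemma half_long {θ A A' B c₀ c₁ Θ K E T : ℝ} {r : ℕ} (hθ : 0 < θ) (hA : 0 < A) (hAA : A ≤ A') (hB : 0 < B) (hc₀ : 1 ≤ c₀)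
    (hK : 2 * (2 * c₀ + 1) ≤ K) (hE : E = B + 1) (hΘ0 : 0 < Θ) (hΘ1 : Θ ≤ 1 / 2) (hΘ2 : K * Θ ≤ c₁) (hΘ3 : K * Θ ^ 2 < θ ^ 2)
    (hT : Real.exp (Real.exp (2 + (A' * K + 2 * Real.pi * E * K ^ 2))) ≤ T)
    (H : ∀ c : ℝ, c₀ ≤ c → c ≤ c₁ * (Real.log T / Real.log (Real.log T)) →
      ENNReal.ofReal (Real.exp (-(A * c)) * T) ≤
        volume {t : ℝ | T ≤ t ∧ t ≤ 2 * T ∧ (zc (Ico t (t + c * sp T)) : ℝ) ≤ c - θ * √c ∧
          ∃ g : ℝ, IsOrd g ∧ t - B * c * sp T ≤ g ∧ g < t})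
    (hr : 1 ≤ r) (hrT : (r : ℝ) ≤ Θ * (Real.log T / Real.log (Real.log T))) :
    Real.exp (-((A' * K + 2 * Real.pi * E * K ^ 2 + 1) * r)) * (T * Real.log T) ≤ ((Glong T (r + Θ * √r) r).ncard : ℝ) := by
  have hpi := Real.pi_pos
  have hA' : 0 < A' := by linarith
  have hE1 : 1 ≤ E := by linarith
  have hK1 : 1 ≤ K := by linarith
  have hr1 : (1 : ℝ) ≤ r := by exact_mod_cast hr
  obtain ⟨b1, b2, b3, b4, b5⟩ := big (A₁ := A' * K + 2 * Real.pi * E * K ^ 2) (by positivity) hT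
  have hL : 0 < Real.log T := lt_of_lt_of_le (Real.exp_pos _) b3
  have hLL : 0 < Real.log T / Real.log (Real.log T) := by
    have : 0 < Real.log (Real.log T) := by linarith
    positivity
  have hsp := Pool.Agent.Helper56.UG.sp_pos b1
  obtain ⟨m, hm, hm2, hm3⟩ := pick_m hc₀ hr
  have hm1 : (1 : ℝ) ≤ m := by exact_mod_cast hm
  have hsq := sqrt_le_self' hr
  have hsq0 : 0 ≤ √(r : ℝ) := Real.sqrt_nonneg _
  have hΘr : Θ * √(r : ℝ) ≤ r / 2 := by
    have : Θ * √(r : ℝ) ≤ 1 / 2 * r := mul_le_mul hΘ1 hsq hsq0 (by norm_num)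
    linarith
  have hΘr0 : 0 ≤ Θ * √(r : ℝ) := by positivity
  set ℓ : ℝ := r + Θ * √(r : ℝ) with hℓ
  have hℓ1 : (r : ℝ) ≤ ℓ := by linarith
  have hℓ2 : ℓ ≤ 2 * r := by linarith
  have hℓ0 : 0 < ℓ := by linarith
  set c : ℝ := m * ℓ with hc
  have hcl : m * r ≤ c := mul_le_mul_of_nonneg_left hℓ1 (by linarith)
  have hmr0 : 0 ≤ (m : ℝ) * r := by positivity
  have hc1 : c₀ ≤ c := by linarith
  have hmK : 2 * (m : ℝ) ≤ K := by linarith
  have hcK : c ≤ K * r := by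
    have : (m : ℝ) * ℓ ≤ (K / 2) * (2 * r) := mul_le_mul (by linarith) hℓ2 hℓ0.le (by linarith)
    rw [hc]
    linarith
  have hc2 : c ≤ c₁ * (Real.log T / Real.log (Real.log T)) := by
    refine hcK.trans ?_
    calc K * r ≤ K * (Θ * (Real.log T / Real.log (Real.log T))) := mul_le_mul_of_nonneg_left hrT (by linarith)
      _ = (K * Θ) * (Real.log T / Real.log (Real.log T)) := by ring
      _ ≤ c₁ * (Real.log T / Real.log (Real.log T)) := mul_le_mul_of_nonneg_right hΘ2 hLL.le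
  have hc0 : 0 < c := by linarith
  have hmain := H c hc1 hc2
  have hm0 : 0 ≤ ℓ * sp T := by positivity
  have hmh : (m : ℝ) * (ℓ * sp T) = c * sp T := by rw [hc]; ring
  have hcon := sqrt_contra (θ := θ) (Θ := Θ) (c := c) hθ hr hm (by linarith) (by
    have : 2 * (m : ℝ) * Θ ^ 2 ≤ K * Θ ^ 2 := mul_le_mul_of_nonneg_right hmK (by positivity)
    linarith)
  refine core (S := {t : ℝ | T ≤ t ∧ t ≤ 2 * T ∧ (zc (Ico t (t + c * sp T)) : ℝ) ≤ c - θ * √c ∧
          ∃ g : ℝ, IsOrd g ∧ t - B * c * sp T ≤ g ∧ g < t})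
    (S' := {t : ℝ | T ≤ t ∧ t ≤ 2 * T ∧ zc (Ico t (t + ℓ * sp T)) < r ∧ ∃ g : ℝ, IsOrd g ∧ t - E * (c * sp T) ≤ g ∧ g < t})
    (D := E * (c * sp T)) (h := ℓ * sp T) (c := c) (m := m)
    hA' hE1 hK1 b2 hr hm (by linarith) hc0 hcK hmh le_rfl (by positivity) b3 (small_r hA' hK1 hE1 hΘ0 hΘ1 hT hrT) ?_ ?_ ?_
  · refine le_trans (ENNReal.ofReal_le_ofReal ?_) hmain
    apply mul_le_mul_of_nonneg_right _ b2.le
    apply Real.exp_le_exp.2
    have : A * c ≤ A' * c := mul_le_mul_of_nonneg_right hAA hc0.le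
    linarith
  · apply shift_cover hm0
    rintro t ⟨t1, t2, t3, g, g1, g2, g3⟩
    refine ⟨t2, ?_⟩
    rw [← hmh] at t3
    have h1 : (zc (Ico t (t + m * (ℓ * sp T))) : ℝ) < (m : ℝ) * r := by
      refine lt_of_le_of_lt t3 ?_
      have : c = (m : ℝ) * r + m * (Θ * √(r : ℝ)) := by rw [hc, hℓ]; ring
      linarith
    obtain ⟨i, hi, hi2⟩ := pigeon_lt hm0 hm (by exact_mod_cast h1)
    have h4 : 0 ≤ (i : ℝ) * (ℓ * sp T) := by positivity
    refine ⟨i, hi, fun h3 => ⟨by linarith, h3, ?_, g, g1, ?_, by linarith⟩⟩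
    · convert hi2 using 3
      ring
    · have h5 : (i : ℝ) * (ℓ * sp T) ≤ c * sp T := by
        rw [← hmh]
        exact mul_le_mul_of_nonneg_right (by exact_mod_cast hi.le) hm0
      rw [hE]
      linarith
  · exact Pool.Agent.Helper56.UG.cvm T ℓ (E * (c * sp T)) b1 hℓ0 (by positivity) r

theorem final_of_M (hp : Mp) (hm : Mm) : Final := by
  obtain ⟨θ₁, A₁, a₀, a₁, T₁, hθ₁, hA₁, ha₀, ha₁, H₁⟩ := hp
  obtain ⟨θ₂, A₂, B, b₀, b₁, T₂, hθ₂, hA₂, hB, hb₀, hb₁, H₂⟩ := hm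
  set c₀ := max a₀ b₀ with hc₀
  have hpi := Real.pi_pos
  set K : ℝ := 2 * (2 * c₀ + 1) with hK
  have hc₀1 : 1 ≤ c₀ := ha₀.trans (le_max_left _ _)
  have hKpos : 0 < K := by linarith
  set A' := max A₁ A₂ with hA'
  set E := B + 1 with hE
  have hA'0 : 0 < A' := lt_of_lt_of_le hA₁ (le_max_left _ _)
  -- the constant Θ
  obtain ⟨Θ, hΘ0, hΘ1, hΘ2, hΘ2', hΘ3, hΘ3'⟩ : ∃ Θ : ℝ, 0 < Θ ∧ Θ ≤ 1 / 2 ∧ K * Θ ≤ a₁ ∧ K * Θ ≤ b₁ ∧
      K * Θ ^ 2 < θ₁ ^ 2 ∧ K * Θ ^ 2 < θ₂ ^ 2 := by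
    set θ := min θ₁ θ₂ with hθ
    have hθ0 : 0 < θ := lt_min hθ₁ hθ₂
    set d := min a₁ b₁ with hd
    have hd0 : 0 < d := lt_min ha₁ hb₁
    have h2K : 2 ≤ K := by linarith
    refine ⟨min (1 / 2) (min (d / K) (θ / K)), by positivity, min_le_left _ _, ?_, ?_, ?_, ?_⟩
    · have h1 : min (1 / 2) (min (d / K) (θ / K)) ≤ d / K := (min_le_right _ _).trans (min_le_left _ _)
      have h2 := mul_le_mul_of_nonneg_left h1 hKpos.le
      rw [mul_div_cancel₀ _ hKpos.ne'] at h2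
      exact h2.trans (min_le_left _ _)
    · have h1 : min (1 / 2) (min (d / K) (θ / K)) ≤ d / K := (min_le_right _ _).trans (min_le_left _ _)
      have h2 := mul_le_mul_of_nonneg_left h1 hKpos.le
      rw [mul_div_cancel₀ _ hKpos.ne'] at h2
      exact h2.trans (min_le_right _ _)
    all_goals
      have h1 : min (1 / 2) (min (d / K) (θ / K)) ≤ θ / K := (min_le_right _ _).trans (min_le_right _ _)
      have h0 : 0 < min (1 / 2) (min (d / K) (θ / K)) := by positivity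
      set Θ := min (1 / 2) (min (d / K) (θ / K))
      have h2 : K * Θ ≤ θ := by
        have h2 := mul_le_mul_of_nonneg_left h1 hKpos.le
        rwa [mul_div_cancel₀ _ hKpos.ne'] at h2
      have h3 : K * Θ ^ 2 < θ ^ 2 := by
        have h4 : (K * Θ) ^ 2 ≤ θ ^ 2 := pow_le_pow_left₀ (by positivity) h2 2
        have h5 : K * Θ ^ 2 < (K * Θ) ^ 2 := by
          have h6 : 0 < Θ ^ 2 := by positivity
          have h7 : K * Θ ^ 2 * 1 < K * Θ ^ 2 * K := mul_lt_mul_of_pos_left (by linarith) (by positivity)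
          nlinarith
        linarith
    · exact lt_of_lt_of_le h3 (pow_le_pow_left₀ hθ0.le (min_le_left _ _) 2)
    · exact lt_of_lt_of_le h3 (pow_le_pow_left₀ hθ0.le (min_le_right _ _) 2)
  refine ⟨Θ, A' * K + 2 * Real.pi * E * K ^ 2 + 1,
    max (max T₁ T₂) (Real.exp (Real.exp (2 + (A' * K + 2 * Real.pi * E * K ^ 2)))), hΘ0, by positivity, ?_⟩
  intro T hT r hr hrT
  have hT1 : T₁ ≤ T := (le_max_left _ _).trans ((le_max_left _ _).trans hT)
  have hT2 : T₂ ≤ T := (le_max_right _ _).trans ((le_max_left _ _).trans hT)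
  have hT3 := (le_max_right _ _).trans hT
  constructor
  · refine half_long (A := A₂) (A' := A') (B := B) (c₀ := c₀) (c₁ := b₁) (K := K) (E := E) hθ₂ hA₂ (le_max_right _ _) hB hc₀1 hK.ge
      hE hΘ0 hΘ1 hΘ2' hΘ3' hT3 ?_ hr hrT
    intro c hc1 hc2
    exact H₂ T hT2 c ((le_max_right _ _).trans hc1) hc2
  · refine half_short (A := A₁) (A' := A') (c₀ := c₀) (c₁ := a₁) (K := K) (E := E) hθ₁ hA₁ (le_max_left _ _) hc₀1 hK.ge
      (by linarith) hΘ0 hΘ1 hΘ2 hΘ3 hT3 ?_ hr hrT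
    intro c hc1 hc2
    exact H₁ T hT1 c ((le_max_left _ _).trans hc1) hc2

end Pool.Agent.Helper24.UG
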