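import Pool.Agent.Helper24.UG.Ker
import Pool.Agent.Helper57.M.E

/-!
# UG: mass and tail of the kernel (K9)

`qk 0 (2 π w)` is the Fourier transform of `(1 - |u|)²` on `[-1, 1]`.
-/

set_option autoImplicit false
open MeasureTheory Set Filter Topology
open Pool.Agent.Helper57.Zeta Pool.Agent.Helper57.LH Pool.Agent.Helper57.ED Pool.Agent.Helper54.LG
open Pool.Agent.Helper69.UG

namespace Pool.Agent.Helper24.UG

private noncomputable def ff (x : ℝ) : ℝ := max 0 (1 - |x|) ^ 2

private lemma ff_cont : Continuous ff := by unfold ff; fun_prop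

private lemma ff_even (x : ℝ) : ff (-x) = ff x := by unfold ff; rw [abs_neg]

private lemma ff_int : Integrable ff := by
  apply ff_cont.integrable_of_hasCompactSupport
  apply HasCompactSupport.of_support_subset_isCompact (isCompact_Icc (a := (-1 : ℝ)) (b := 1))
  intro x hx
  rw [Function.mem_support] at hx
  rw [Set.mem_Icc, ← abs_le]
  by_contra hcon
  push Not at hcon
  apply hx
  unfold ff
  rw [max_eq_left (by linarith)]
  norm_num

private lemma ff_cos (w : ℝ) : ∫ x, ff x * Real.cos (2 * Real.pi * w * x) = qk 0 (2 * Real.pi * w) := by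
  have h1 : ∀ x, ff x * Real.cos (2 * Real.pi * w * x) =
      (fun y : ℝ => max 0 (1 - y) ^ 2 * Real.cos (2 * Real.pi * w * y)) |x| := by
    intro x
    simp only [ff]
    congr 1
    rcases abs_choice x with h | h
    · rw [h]
    · rw [h, mul_neg, Real.cos_neg]
  simp_rw [h1]
  rw [integral_comp_abs (f := fun y : ℝ => max 0 (1 - y) ^ 2 * Real.cos (2 * Real.pi * w * y))]
  unfold qk
  congr 1
  rw [intervalIntegral.integral_of_le zero_le_one]
  rw [setIntegral_eq_of_subset_of_forall_sdiff_eq_zero (s := Ioc 0 1) measurableSet_Ioi (fun x hx => hx.1)]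
  · refine setIntegral_congr_fun measurableSet_Ioc fun x hx => ?_
    simp only [zero_mul, Real.cosh_zero, mul_one]
    rw [max_eq_right (by linarith [hx.2])]
  · rintro x ⟨hx1, hx2⟩
    have : 1 < x := by
      by_contra hcon
      push Not at hcon
      exact hx2 ⟨hx1, hcon⟩
    rw [max_eq_left (by linarith)]
    ring

theorem qk_int : Integrable (fun b => qk 0 b) := by
  refine Integrable.mono' (integrable_inv_one_add_sq.const_mul 21) (qk_cont 0).aestronglyMeasurable ?_
  filter_upwards with b
  have h := qk_bound 0 b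
  rw [Real.cosh_zero, mul_one] at h
  rw [Real.norm_eq_abs]
  rwa [div_eq_mul_inv] at h

theorem qk_integral : ∫ b, qk 0 b = 2 * Real.pi := by
  have hpi := Real.pi_pos
  have h1 := Pool.Agent.Helper57.LS.inv_even (f := ff) (g := fun w => qk 0 (2 * Real.pi * w)) ff_int ff_cont ff_even
    (qk_int.comp_mul_left' (by positivity)) (fun v => by
      rw [mul_neg, qk_neg_right]) ff_cos 0
  simp only [mul_zero, zero_mul, Real.cos_zero, mul_one] at h1
  have h2 := Measure.integral_comp_mul_left (fun b : ℝ => qk 0 b) (2 * Real.pi)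
  rw [h1, abs_of_pos (by positivity), smul_eq_mul] at h2
  have h3 : ff 0 = 1 := by unfold ff; simp
  rw [h3] at h2
  field_simp at h2
  linarith

theorem qk_le (b : ℝ) : b ^ 2 * qk 0 b ≤ 8 := by
  rcases eq_or_ne b 0 with rfl | hb
  · simp
  have h := qk_closed b
  have h1 : b ^ 2 * qk 0 b = 4 * (1 - Real.sin b / b) := by
    field_simp
    linarith
  have h2 : -1 ≤ Real.sin b / b := by
    have h3 : |Real.sin b / b| ≤ 1 := by
      rw [abs_div, div_le_one (abs_pos.2 hb)]
      exact Real.abs_sin_le_abs
    exact (abs_le.1 h3).1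
  rw [h1]
  linarith

/-- K9: mass and tail of the kernel -/
theorem qk_mass {X : ℝ} (hX : 0 < X) : Integrable (fun s => X / (2 * Real.pi) * qk 0 (X * s)) ∧
    ∫ s, X / (2 * Real.pi) * qk 0 (X * s) = 1 ∧ ∀ B : ℝ, 0 < B →
      ∫ s in {s : ℝ | B < |s|}, X / (2 * Real.pi) * qk 0 (X * s) ≤ 3 / (X * B) := by
  have hpi := Real.pi_pos
  have hi : Integrable (fun s => X / (2 * Real.pi) * qk 0 (X * s)) := (qk_int.comp_mul_left' hX.ne').const_mul _
  refine ⟨hi, ?_, ?_⟩
  · rw [integral_const_mul, Measure.integral_comp_mul_left (fun b : ℝ => qk 0 b) X, qk_integral, abs_of_pos (by positivity), smul_eq_mul]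
    field_simp
  · intro B hB
    set F : ℝ → ℝ := fun s => X / (2 * Real.pi) * qk 0 (X * s) with hF
    have hms : MeasurableSet {s : ℝ | B < |s|} := measurableSet_lt measurable_const continuous_abs.measurable
    have h1 : ∫ s in {s : ℝ | B < |s|}, F s = ∫ s, (Ioi B).indicator F |s| := by
      rw [← integral_indicator hms]
      congr 1
      funext s
      by_cases hs : B < |s|
      · rw [indicator_of_mem (show s ∈ {s : ℝ | B < |s|} from hs), indicator_of_mem (show |s| ∈ Ioi B from hs)]
        simp only [hF]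
        rcases abs_choice s with h | h
        · rw [h]
        · rw [h, mul_neg, qk_neg_right]
      · rw [indicator_of_notMem (show s ∉ {s : ℝ | B < |s|} from hs), indicator_of_notMem (show |s| ∉ Ioi B from hs)]
    rw [h1, integral_comp_abs (f := (Ioi B).indicator F), setIntegral_indicator measurableSet_Ioi,
      show Ioi (0:ℝ) ∩ Ioi B = Ioi B by rw [Ioi_inter_Ioi, max_eq_right hB.le]]
    have h2 : ∫ s in Ioi B, F s ≤ ∫ s in Ioi B, 4 / (Real.pi * X) * s ^ (-2 : ℝ) := by
      refine setIntegral_mono_on hi.integrableOn ?_ measurableSet_Ioi fun s hs => ?_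
      · exact (integrableOn_Ioi_rpow_of_lt (by norm_num) hB).const_mul _
      · have hs0 : 0 < s := lt_trans hB hs
        have h3 := qk_le (X * s)
        rw [Real.rpow_neg hs0.le, Real.rpow_two]
        simp only [hF]
        have h4 : qk 0 (X * s) ≤ 8 / (X * s) ^ 2 := by
          rw [le_div_iff₀ (by positivity)]
          linarith
        calc X / (2 * Real.pi) * qk 0 (X * s) ≤ X / (2 * Real.pi) * (8 / (X * s) ^ 2) :=
              mul_le_mul_of_nonneg_left h4 (by positivity)
          _ = 4 / (Real.pi * X) * (s ^ 2)⁻¹ := by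
              field_simp
              ring
    have h5 : ∫ s in Ioi B, 4 / (Real.pi * X) * s ^ (-2 : ℝ) = 4 / (Real.pi * X) / B := by
      rw [integral_const_mul, integral_Ioi_rpow_of_lt (by norm_num) hB]
      have : (-2 : ℝ) + 1 = -1 := by norm_num
      rw [this, Real.rpow_neg_one]
      field_simp
    rw [h5] at h2
    have h6 : 2 * (4 / (Real.pi * X) / B) ≤ 3 / (X * B) := by
      have h7 : 2 * (4 / (Real.pi * X) / B) = 8 / Real.pi / (X * B) := by
        field_simp
        ring
      rw [h7]
      apply div_le_div_of_nonneg_right _ (by positivity)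
      rw [div_le_iff₀ hpi]
      linarith [Real.pi_gt_three]
    linarith

end Pool.Agent.Helper24.UG
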