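import Pool.Agent.Helper24.UG.Win
import Pool.Agent.Helper24.UG.Red
import Pool.Agent.Helper24.UG.Cor
import Pool.Agent.Helper65.UG.R10
import Pool.Agent.Helper65.UG.R11
import Pool.Agent.Helper68.UG.M3
import Pool.Agent.Helper90.UG.M4
import Pool.Agent.Helper82.UG.Fm2
import Pool.Agent.Helper8.UG.Z2
import Pool.Agent.Helper49.UG.MLast
import Pool.Agent.Helper64.UG.Tail
import Pool.Agent.Helper56.UG.FarD
import Pool.Agent.Helper57.UG.MmB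
import Pool.Agent.Helper69.UG.NxDev
import Pool.Agent.Helper93.UG.Q0
import Pool.Agent.Helper36.UG.Res
import Pool.Agent.Helper82.UG.FewFin
import Pool.Agent.Helper80.UG.Many
import Pool.Agent.Helper53.UG.Z6

/-!
# UG: assembly
-/

set_option autoImplicit false
open MeasureTheory Set Filter Topology
open Pool.Agent.Helper57.Zeta Pool.Agent.Helper57.LH Pool.Agent.Helper57.ED Pool.Agent.Helper54.LG
open Pool.Agent.Helper93.UG (zc IsOrd sp)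
open Pool.Agent.Helper69.UG

namespace Pool.Agent.Helper24.UG

/-! ### R -/

/-- R5 -/
theorem prod_le_VV : ∃ C c0 T0 : ℝ, 0 < C ∧ ∀ T, T0 ≤ T → ∀ c, Adm c0 T c → ∀ v : ℝ, v ^ 2 = c / 100 →
    ∏ p ∈ PR T c, (1 + (2 + |v|) ^ 2 / p + 2 * (2 + 2 * |v|) ^ 2 / p ^ 2) ≤ C * Real.exp (C * √c) * VV T c v :=
  Pool.Agent.Helper36.UG.prod_le_VV_of Pool.Agent.Helper25.UG.PR_facts

/-! ### M -/

/-- M4 -/
theorem arith : ∃ C c0 T0 : ℝ, 0 < C ∧ ∀ T, T0 ≤ T → ∀ c, Adm c0 T c → ∀ v : ℝ, v ^ 2 = c / 100 →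
    ∀ σ, 1 / 2 + 1 / Real.log T ≤ σ → σ ≤ 3 / 4 → ∀ q : ℕ → ℝ, (∀ n, |q n| ≤ |rr T c v n| * (n : ℝ) ^ (σ - 1 / 2)) →
    Summable (fun j : ℕ => ((∑ h ∈ j.divisors, gg T c h * q (j / h)) - q j) ^ 2 * (j : ℝ) ^ (-2 * σ)) ∧
    ∑' j : ℕ, ((∑ h ∈ j.divisors, gg T c h * q (j / h)) - q j) ^ 2 * (j : ℝ) ^ (-2 * σ) ≤
      C * T ^ (-(σ - 1 / 2 - 1 / Real.log T) / 16) * Real.exp (C * √c) * VV T c v :=
  Pool.Agent.Helper90.UG.arith_of (fun hT _ hn hn2 => Pool.Agent.Helper69.UG.gg_gap hT hn hn2)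
    (fun h1 h2 h3 h4 => Pool.Agent.Helper69.UG.gg_mul h1 h2 h3 h4)
    (fun n => Pool.Agent.Helper69.UG.gb_le n) prod_le_VV Pool.Agent.Helper25.UG.bv

/-- M5 -/
theorem fm : ∃ C c0 T0 : ℝ, 0 < C ∧ ∀ T, T0 ≤ T → ∀ c, Adm c0 T c → ∀ v : ℝ, v ^ 2 = c / 100 →
    ∀ τ u y : ℝ, |τ| ≤ 2 * T → |u| ≤ 2 * T → 1 ≤ y → y ≤ Real.log T / 4 →
    Integrable (fun t => wt T c v τ t * ‖FF T c (pt T y (t + u)) - 1‖ ^ 2) ∧
    ∫ t, wt T c v τ t * ‖FF T c (pt T y (t + u)) - 1‖ ^ 2 ≤ C * Real.exp (C * √c - y / 16) * VV T c v :=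
  Pool.Agent.Helper82.UG.fm_of (fun hT hc _ h => Pool.Agent.Helper60.UG.rr_supp hT hc h) Pool.Agent.Helper60.UG.rr_bd arith

/-! ### Z -/

/-- Z4 -/
theorem mGY : ∃ C c0 T0 : ℝ, 0 < C ∧ ∀ T, T0 ≤ T → ∀ c, Adm c0 T c → ∀ v : ℝ, v ^ 2 = c / 100 →
    ∀ τ u y : ℝ, |τ| ≤ 2 * T → |u| ≤ T → 2 ≤ y → ∀ K : ℕ, 1 ≤ K → 4 * 2 ^ K * y ≤ Real.log T / 4 →
    Integrable (fun t => wt T c v τ t * GY T c y K (t + u)) ∧
    ∫ t, wt T c v τ t * GY T c y K (t + u) ≤ C * Real.exp (C * √c - y / 64) * VV T c v :=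
  Pool.Agent.Helper49.UG.mGY_of fm Pool.Agent.Helper60.UG.wmass

/-- Z5 -/
theorem mLast : ∃ c0 T0 : ℝ, ∀ T, T0 ≤ T → ∀ c, Adm c0 T c → ∀ v : ℝ, v ^ 2 = c / 100 →
    ∀ τ u y : ℝ, |τ| ≤ 2 * T → |u| ≤ T → 2 ≤ y → ∀ K : ℕ, 1 ≤ K → 4 * 2 ^ K * y ≤ Real.log T / 4 →
    Real.log T / 4 < 8 * 2 ^ K * y →
    Integrable (fun t => wt T c v τ t * (Real.log (4 + |t + u|) * cen T c y (K - 1) (t + u))) ∧
    ∫ t, wt T c v τ t * (Real.log (4 + |t + u|) * cen T c y (K - 1) (t + u)) ≤ T ^ (-(1 / 1000) : ℝ) * VV T c v :=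
  Pool.Agent.Helper49.UG.mLast_of fm Pool.Agent.Helper60.UG.m4

open Classical in
/-- Z6, statement -/
def MDeep : Prop := ∃ c0 T0 : ℝ, ∀ T, T0 ≤ T → ∀ c, Adm c0 T c → ∀ v : ℝ, v ^ 2 = c / 100 →
    ∀ τ u : ℝ, |τ| ≤ 2 * T → |u| ≤ T →
    Integrable (fun t => wt T c v τ t * ∑' ρ : ZS, mx ρ * (if |(ρ : ℂ).re - 1 / 2| < 1 / 64 then 0 else
      1 / (1 + zb (XX T c) (t + u) ρ ^ 2))) ∧
    ∫ t, wt T c v τ t * ∑' ρ : ZS, mx ρ * (if |(ρ : ℂ).re - 1 / 2| < 1 / 64 then 0 else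
      1 / (1 + zb (XX T c) (t + u) ρ ^ 2)) ≤ T ^ (-(1 / 2000) : ℝ) * VV T c v

/-- Z8 -/
theorem far_mean (mDeep : MDeep) : ∃ C1 c0 T0 : ℝ, 1 ≤ C1 ∧ ∀ T, T0 ≤ T → ∀ c, Adm c0 T c → ∀ v : ℝ, v ^ 2 = c / 100 →
    ∀ τ u : ℝ, |τ| ≤ 2 * T → |u| ≤ T / 4 →
    Integrable (fun t => wt T c v τ t * far T c (C1 * √c) (t + u)) ∧
    ∫ t, wt T c v τ t * far T c (C1 * √c) (t + u) ≤ VV T c v :=
  Pool.Agent.Helper56.UG.far_mean_of Pool.Agent.Helper69.UG.chain mGY mLast mDeep Pool.Agent.Helper64.UG.tail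
    Pool.Agent.Helper60.UG.rr_bd

/-- K6 -/
theorem nx_dev (mDeep : MDeep) : ∃ C c0 T0 : ℝ, 0 < C ∧ ∀ T, T0 ≤ T → ∀ c, Adm c0 T c → ∀ v : ℝ, v ^ 2 = c / 100 →
    ∀ τ u e : ℝ, T ≤ τ → τ ≤ 2 * T → |u| ≤ √T → e = 1 ∨ e = 2 →
    Integrable (fun t => wt T c v τ t * |NX (XX T c / e) (t + u) - e * c + SS (XX T c / e) (t + u)|) ∧
    ∫ t, wt T c v τ t * |NX (XX T c / e) (t + u) - e * c + SS (XX T c / e) (t + u)| ≤ C * VV T c v :=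
  nx_dev_of (far_mean mDeep) Pool.Agent.Helper57.UG.mMM Pool.Agent.Helper65.UG.vSS

/-! ### Q -/

/-- Q1 -/
theorem few (mDeep : MDeep) : Pool.Agent.Helper93.UG.Few :=
  Pool.Agent.Helper82.UG.few_of3 Pool.Agent.Helper65.UG.eSS Pool.Agent.Helper65.UG.vSS (nx_dev mDeep)

/-- Q2 -/
theorem many (mDeep : MDeep) : Pool.Agent.Helper93.UG.Many := Pool.Agent.Helper80.UG.many_of (nx_dev mDeep)

/-- the statement about clusters -/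
theorem mp_of (mDeep : MDeep) : Pool.Agent.Helper93.UG.Mp :=
  Pool.Agent.Helper93.UG.mp_of Pool.Agent.Helper93.UG.to_meas (many mDeep) zc_meas

/-- the statement about long gaps -/
theorem mminus_of (mDeep : MDeep) : Pool.Agent.Helper93.UG.Mm :=
  Pool.Agent.Helper93.UG.mm_of Pool.Agent.Helper93.UG.to_meas (few mDeep) zc_meas

/-- Theorem U -/
theorem final_of (mDeep : MDeep) : Pool.Agent.Helper93.UG.Final := final_of_M (mp_of mDeep) (mminus_of mDeep)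

/-- Z6 -/
theorem mDeep : MDeep := Pool.Agent.Helper53.UG.mDeep

theorem mp : Pool.Agent.Helper93.UG.Mp := mp_of mDeep

theorem mminus : Pool.Agent.Helper93.UG.Mm := mminus_of mDeep

/-- Theorem U -/
theorem final : Pool.Agent.Helper93.UG.Final := final_of mDeep

end Pool.Agent.Helper24.UG
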